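import Pool.Agent.Run7.h738.EX.Kn
import Pool.Agent.H246KN.GEN

/-! # Growth of the numbers of polygons of a class, and the tails -/

set_option autoImplicit false

namespace Run7.h738.EX

open scoped Classical
open KN Filter Topology

/-- at the lengths where the number of polygons is not too small, the numbers do not grow faster
than exponentially -/
theorem growth (Q : List Dir → Prop) (hQ : KClass Q) (hne : ∃ w, SAP w ∧ Q w) :
    ∃ (δ : ℝ) (G k0 : ℕ), 0 < δ ∧ δ < 1 ∧ ∀ k, k0 ≤ k →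
      ((1 - δ) * gr Q) ^ (2 * k) ≤ (KN.a Q (2 * k) : ℝ) →
      ∀ m, KN.a Q (2 * (k + m)) ≤ G ^ m * KN.a Q (2 * k) := by
  obtain ⟨g1, -, g2⟩ := gr_bounds Q hQ hne
  obtain ⟨δ₁, hδ0, hδ1, h⟩ := GEN.class_a c_class S_five_proof Q (GEN.inv_of Q hQ) (by linarith) 1
    one_pos
  obtain ⟨k0, hk0⟩ := eventually_atTop.1 h
  set g := gr Q with hg
  set q1 := (1 - δ₁) * g with hq1
  set q := (1 - δ₁ / 2) * g with hq
  have hg0 : 0 < g := by linarith
  have hq1pos : 0 < q1 := mul_pos (by linarith) hg0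
  have hlt : q1 < q := by
    rw [hq1, hq]
    exact mul_lt_mul_of_pos_right (by linarith) hg0
  have hq1le : q1 ^ 2 ≤ 25 := by
    have : q1 ≤ 5 := by
      rw [hq1]
      nlinarith
    nlinarith
  have hρ : 1 < (q / q1) ^ 2 := by
    have : 1 < q / q1 := by rwa [one_lt_div hq1pos]
    nlinarith
  obtain ⟨A, hA⟩ := pow_unbounded_of_one_lt (25 / 13 : ℝ) hρ
  refine ⟨δ₁ / 2, 2 * 26 ^ (A + 1), k0, by linarith, by linarith, ?_⟩
  intro k hk htyp m
  rw [← hq] at htyp
  have hqpos : 0 < q := hq1pos.trans hlt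
  have hxk : 0 < (KN.a Q (2 * k) : ℝ) := lt_of_lt_of_le (by positivity) htyp
  have hxk1 : 1 ≤ KN.a Q (2 * k) := by
    have : 0 < KN.a Q (2 * k) := by exact_mod_cast hxk
    omega
  have key : ∀ m : ℕ, ((KN.a Q (2 * (k + m)) : ℝ) ≤ 26 ^ m * (KN.a Q (2 * k) : ℝ) ∧
      13 ^ m * (KN.a Q (2 * k) : ℝ) ≤ (KN.a Q (2 * (k + m)) : ℝ)) ∨ (k ≤ A * m ∧ 1 ≤ m) := by
    intro m
    induction m with
    | zero => left; simp
    | succ m ih =>
      rcases ih with ⟨i1, i2⟩ | ⟨i1, i2⟩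
      swap
      · right
        refine ⟨i1.trans (Nat.mul_le_mul_left _ (by omega)), by omega⟩
      by_cases hT : q1 ^ (2 * (k + m)) ≤ (KN.a Q (2 * (k + m)) : ℝ)
      · left
        have h1 := hk0 (k + m) (by omega) hT
        have hx : 0 < (KN.a Q (2 * (k + m)) : ℝ) := lt_of_lt_of_le (by positivity) hT
        rw [abs_le] at h1
        have e : 2 * (k + m) + 2 = 2 * (k + (m + 1)) := by ring
        rw [e] at h1
        obtain ⟨h2, h3⟩ := h1
        have h4 : (KN.a Q (2 * (k + (m + 1))) : ℝ) / (KN.a Q (2 * (k + m)) : ℝ) ≤ 26 := by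
          nlinarith
        have h5 : 13 ≤ (KN.a Q (2 * (k + (m + 1))) : ℝ) / (KN.a Q (2 * (k + m)) : ℝ) := by
          nlinarith
        rw [div_le_iff₀ hx] at h4
        rw [le_div_iff₀ hx] at h5
        constructor
        · calc _ ≤ 26 * (KN.a Q (2 * (k + m)) : ℝ) := h4
            _ ≤ 26 * (26 ^ m * (KN.a Q (2 * k) : ℝ)) := by linarith
            _ = _ := by ring
        · calc _ = 13 * (13 ^ m * (KN.a Q (2 * k) : ℝ)) := by ring
            _ ≤ 13 * (KN.a Q (2 * (k + m)) : ℝ) := by linarith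
            _ ≤ _ := h5
      · right
        push Not at hT
        have h1 : 13 ^ m * q ^ (2 * k) < q1 ^ (2 * (k + m)) := by
          calc _ ≤ 13 ^ m * (KN.a Q (2 * k) : ℝ) := by
                refine mul_le_mul_of_nonneg_left htyp (by positivity)
            _ ≤ _ := i2
            _ < _ := hT
        have h2 : ((q / q1) ^ 2) ^ k < (25 / 13 : ℝ) ^ m := by
          have h3 : q1 ^ (2 * (k + m)) = q1 ^ (2 * k) * (q1 ^ 2) ^ m := by
            rw [mul_add, pow_add, pow_mul q1 2 m]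
          have h4 : (q1 ^ 2) ^ m ≤ 25 ^ m := pow_le_pow_left₀ (by positivity) hq1le m
          have h5 : 13 ^ m * q ^ (2 * k) < q1 ^ (2 * k) * 25 ^ m := by
            refine lt_of_lt_of_le h1 ?_
            rw [h3]
            exact mul_le_mul_of_nonneg_left h4 (by positivity)
          rw [← pow_mul, div_pow, div_pow, div_lt_div_iff₀ (by positivity) (by positivity)]
          linarith
        refine ⟨?_, by omega⟩
        by_contra hc
        push Not at hc
        have h6 : A * m ≤ k := by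
          have : A * m ≤ A * (m + 1) := Nat.mul_le_mul_left _ (by omega)
          omega
        have h7 : (25 / 13 : ℝ) ^ m ≤ ((q / q1) ^ 2) ^ (A * m) := by
          rw [pow_mul]
          exact pow_le_pow_left₀ (by norm_num) hA.le m
        have h8 : ((q / q1) ^ 2) ^ (A * m) ≤ ((q / q1) ^ 2) ^ k := pow_le_pow_right₀ hρ.le h6
        linarith
  have hfinal : (KN.a Q (2 * (k + m)) : ℝ) ≤ (2 * 26 ^ (A + 1)) ^ m * (KN.a Q (2 * k) : ℝ) := by
    rcases key m with ⟨i1, -⟩ | ⟨i1, i2⟩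
    · refine i1.trans (mul_le_mul_of_nonneg_right ?_ hxk.le)
      refine pow_le_pow_left₀ (by norm_num) ?_ m
      have : (1 : ℝ) ≤ 26 ^ A := one_le_pow₀ (by norm_num)
      rw [pow_succ]
      linarith
    · have h1 := S_five_proof Q (2 * (k + m))
      have h2 : (5 : ℝ) ^ (2 * (k + m)) ≤ 26 ^ ((A + 1) * m) := by
        rw [pow_mul]
        calc ((5 : ℝ) ^ 2) ^ (k + m) ≤ 26 ^ (k + m) := pow_le_pow_left₀ (by norm_num)
              (by norm_num) _
          _ ≤ 26 ^ ((A + 1) * m) := pow_le_pow_right₀ (by norm_num) (by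
              have : (A + 1) * m = A * m + m := by ring
              omega)
      have h3 : (2 : ℝ) ≤ 2 ^ m := by
        calc (2 : ℝ) = 2 ^ 1 := by norm_num
          _ ≤ 2 ^ m := pow_le_pow_right₀ (by norm_num) i2
      have h4 : (1 : ℝ) ≤ (KN.a Q (2 * k) : ℝ) := by exact_mod_cast hxk1
      calc (KN.a Q (2 * (k + m)) : ℝ) ≤ 2 * 5 ^ (2 * (k + m)) := h1
        _ ≤ 2 ^ m * 26 ^ ((A + 1) * m) := mul_le_mul h3 h2 (by positivity) (by positivity)
        _ = (2 * 26 ^ (A + 1)) ^ m := by rw [mul_pow, ← pow_mul]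
        _ ≤ _ := le_mul_of_one_le_right (by positivity) h4
  exact_mod_cast hfinal

theorem mem_NM {V : Type} (L : Lay V) (l : List V) (y : ℕ) (v : V) :
    v ∈ NM L l y ↔ v ∈ l ∧ ∀ w ∈ l, L.h w ≤ L.h v + y := by
  unfold NM
  rw [Finset.mem_filter, List.mem_toFinset]

theorem NM_len {V : Type} (L : Lay V) (l : List V) (y : ℕ) : (NM L l y).card ≤ l.length := by
  unfold NM
  exact (Finset.card_filter_le _ _).trans (List.toFinset_card_le _)

/-- the sites of a polygon within distance `y` of the supporting plane in the direction `d` -/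
def near (d : Dir) (y : ℕ) (w : List Dir) : Set Z3 :=
  {v | v ∈ path w ∧ ∀ u ∈ path w, hgt d u ≤ hgt d v + y}

theorem near_eq (d : Dir) (y a : ℕ) (ha : 6 ≤ a) {w : List Dir} (hw : SAP w) :
    (near d y w).ncard = (NM (lz d a ha) (lw w) y).card := by
  rw [← Set.ncard_coe_finset]
  congr 1
  ext v
  unfold near
  rw [Finset.mem_coe, mem_NM, mem_lw hw]
  constructor
  · rintro ⟨h1, h2⟩
    exact ⟨h1, fun u hu => h2 u ((mem_lw hw u).1 hu)⟩
  · rintro ⟨h1, h2⟩
    exact ⟨h1, fun u hu => h2 u ((mem_lw hw u).2 hu)⟩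

theorem near_le (d : Dir) (y : ℕ) {w : List Dir} (hw : SAP w) : (near d y w).ncard ≤ w.length := by
  rw [near_eq d y 6 (le_refl _) hw]
  refine (NM_len _ _ _).trans ?_
  rw [lw_length]

/-- the polygons with many sites near the supporting plane -/
noncomputable def many (Q : List Dir → Prop) (d : Dir) (y : ℕ) (X : ℝ) (n : ℕ) : ℕ :=
  ((K Q n).filter (fun w => X < ((near d y w).ncard : ℝ))).card

theorem many_eq (Q : List Dir → Prop) (hQ : Inv Q) (d : Dir) (y a : ℕ) (ha : 6 ≤ a) (x : ℝ)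
    (n : ℕ) : many Q d y (KK (lz d a ha) ^ (1 + y) * (1 + x)) (n + 1) =
      ((kfam d a ha hQ).B (lz d a ha) x y n).card := by
  unfold many
  have h : (kfam d a ha hQ).B (lz d a ha) x y n =
      ((K Q (n + 1)).filter (fun w => KK (lz d a ha) ^ (1 + y) * (1 + x) <
        ((near d y w).ncard : ℝ))).image lw := by
    ext l
    unfold Fam.B
    show l ∈ ((K Q (n + 1)).image lw).filter _ ↔ _
    rw [Finset.mem_filter, Finset.mem_image, Finset.mem_image]
    constructor
    · rintro ⟨⟨w, hw, rfl⟩, h2⟩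
      refine ⟨w, Finset.mem_filter.2 ⟨hw, ?_⟩, rfl⟩
      rw [near_eq d y a ha (mem_K.1 hw).2.1]
      exact h2
    · rintro ⟨w, hw, rfl⟩
      obtain ⟨h1, h2⟩ := Finset.mem_filter.1 hw
      refine ⟨⟨w, h1, rfl⟩, ?_⟩
      rw [near_eq d y a ha (mem_K.1 h1).2.1] at h2
      exact h2
  rw [h, Finset.card_image_of_injOn]
  intro w hw w' hw' he
  rw [Finset.mem_coe, Finset.mem_filter, mem_K] at hw hw'
  exact lw_inj hw.1.2.1 hw'.1.2.1 he

theorem many_zero (Q : List Dir → Prop) (d : Dir) (y : ℕ) (X : ℝ) : many Q d y X 0 = 0 := by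
  unfold many
  rw [Finset.card_eq_zero, Finset.filter_eq_empty_iff]
  intro w hw
  rw [mem_K] at hw
  have := hw.2.1.1
  omega

theorem a_zero (Q : List Dir → Prop) : KN.a Q 0 = 0 := by
  unfold KN.a
  rw [Finset.card_eq_zero, Finset.eq_empty_iff_forall_notMem]
  intro w hw
  rw [mem_K] at hw
  have := hw.2.1.1
  omega

/-- the tail for the Boltzmann weights -/
theorem tail_t (Q : List Dir → Prop) (hQ : Inv Q) (d : Dir) (y : ℕ) {x t : ℝ} (hx : 0 ≤ x)
    (ht : 1 / 6 ≤ t) (hs : Summable (fun n => (KN.a Q n : ℝ) * t ^ n)) :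
    ∑' n, (many Q d y ((20 * 7 ^ 6) ^ (1 + y) * (1 + x)) n : ℝ) * t ^ n ≤
      Real.exp (-x) * ∑' n, (KN.a Q n : ℝ) * t ^ n := by
  have ht0 : 0 < t := by linarith
  have hKK : KK (lz d 6 (le_refl _)) = 20 * 7 ^ 6 := by
    unfold KK
    show 20 * (((6 : ℕ) : ℝ) + 1) ^ (4 + 2 * 1) = _
    norm_num
  have hs1 : Summable (fun n => (KN.a Q (n + 1) : ℝ) * t ^ (n + 1)) :=
    (summable_nat_add_iff (f := fun n => (KN.a Q n : ℝ) * t ^ n) 1).2 hs
  have hs2 : Summable (fun n => (((kfam d 6 (le_refl _) hQ).F n).card : ℝ) * t ^ n) := by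
    have h1 := hs1.mul_right t⁻¹
    refine h1.congr fun n => ?_
    rw [kfam_card, pow_succ]
    field_simp
  have h := tail_gen (lz d 6 (le_refl _)) (kfam d 6 (le_refl _) hQ) y hx
    (by show 1 / ((6 : ℕ) : ℝ) ≤ t; exact_mod_cast ht) hs2
  set X : ℝ := (20 * 7 ^ 6) ^ (1 + y) * (1 + x) with hX
  have hm : ∀ n, (many Q d y X (n + 1) : ℝ) =
      (((kfam d 6 (le_refl _) hQ).B (lz d 6 (le_refl _)) x y n).card : ℝ) := by
    intro n
    rw [← many_eq, hKK]
  have hms : Summable (fun n => (many Q d y X n : ℝ) * t ^ n) := by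
    refine Summable.of_nonneg_of_le (fun n => by positivity) (fun n => ?_) hs
    refine mul_le_mul_of_nonneg_right ?_ (by positivity)
    unfold many KN.a
    exact_mod_cast Finset.card_filter_le _ _
  rw [hms.tsum_eq_zero_add, hs.tsum_eq_zero_add, many_zero, a_zero]
  simp only [Nat.cast_zero, zero_mul, zero_add]
  have e1 : ∑' n, (many Q d y X (n + 1) : ℝ) * t ^ (n + 1) =
      t * ∑' n, (((kfam d 6 (le_refl _) hQ).B (lz d 6 (le_refl _)) x y n).card : ℝ) * t ^ n := by
    rw [← tsum_mul_left]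
    refine tsum_congr fun n => ?_
    rw [hm, pow_succ]
    ring
  have e2 : ∑' n, (KN.a Q (n + 1) : ℝ) * t ^ (n + 1) =
      t * ∑' n, (((kfam d 6 (le_refl _) hQ).F n).card : ℝ) * t ^ n := by
    rw [← tsum_mul_left]
    refine tsum_congr fun n => ?_
    rw [kfam_card, pow_succ]
    ring
  rw [e1, e2]
  calc _ ≤ t * (Real.exp (-x) * ∑' n, (((kfam d 6 (le_refl _) hQ).F n).card : ℝ) * t ^ n) :=
        mul_le_mul_of_nonneg_left h ht0.le
    _ = _ := by ring

/-- the tail at the lengths where the number of polygons is not too small -/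
theorem tail_n (Q : List Dir → Prop) (hQ : KClass Q) (hne : ∃ w, SAP w ∧ Q w) :
    ∃ C δ : ℝ, 1 < C ∧ 0 < δ ∧ δ < 1 ∧ ∀ n : ℕ, ((1 - δ) * gr Q) ^ n ≤ (KN.a Q n : ℝ) →
      ∀ (d : Dir) (y : ℕ) (x : ℝ), 0 ≤ x →
      (many Q d y (C ^ (1 + y) * (1 + x)) n : ℝ) ≤ Real.exp (-x) * (KN.a Q n : ℝ) := by
  obtain ⟨δ, G, k0, hδ0, hδ1, hG⟩ := growth Q hQ hne
  have ha : 6 ≤ G + 6 := by omega
  set C0 : ℝ := 20 * (((G + 6 : ℕ) : ℝ) + 1) ^ 6 with hC0
  have hKK : ∀ d, KK (lz d (G + 6) ha) = C0 := by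
    intro d
    unfold KK
    rfl
  set C := C0 + 2 * k0 with hC
  have hC01 : 1 < C0 := by
    have h : (1 : ℝ) ≤ (((G + 6 : ℕ) : ℝ) + 1) ^ 6 :=
      one_le_pow₀ (by have : (0 : ℝ) ≤ ((G + 6 : ℕ) : ℝ) := Nat.cast_nonneg _; linarith)
    linarith
  have hk00 : (0 : ℝ) ≤ k0 := Nat.cast_nonneg _
  have hC1 : 1 < C := by linarith
  refine ⟨C, δ, hC1, hδ0, hδ1, ?_⟩
  intro n htyp d y x hx
  have hCp : C ≤ C ^ (1 + y) * (1 + x) := by
    calc C = C ^ 1 * 1 := by ring
      _ ≤ C ^ (1 + y) * (1 + x) := mul_le_mul (pow_le_pow_right₀ hC1.le (by omega)) (by linarith)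
          zero_le_one (by positivity)
  by_cases hn : n < 2 * k0
  · have h0 : many Q d y (C ^ (1 + y) * (1 + x)) n = 0 := by
      unfold many
      rw [Finset.card_eq_zero, Finset.filter_eq_empty_iff]
      intro w hw
      rw [mem_K] at hw
      push Not
      have h1 := near_le d y hw.2.1
      rw [hw.1] at h1
      have h2 : ((near d y w).ncard : ℝ) ≤ 2 * k0 := by
        exact_mod_cast h1.trans hn.le
      linarith
    rw [h0]
    simp only [Nat.cast_zero]
    positivity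
  rcases Nat.even_or_odd' n with ⟨k, rfl | rfl⟩
  swap
  · have h0 : KN.a Q (2 * k + 1) = 0 := a_odd _ _ (by omega)
    have h1 : many Q d y (C ^ (1 + y) * (1 + x)) (2 * k + 1) = 0 := by
      have : many Q d y (C ^ (1 + y) * (1 + x)) (2 * k + 1) ≤ KN.a Q (2 * k + 1) := by
        unfold many KN.a
        exact Finset.card_filter_le _ _
      omega
    rw [h0, h1]
    simp
  rcases Nat.eq_zero_or_pos k with hk | hk
  · subst hk
    rw [show 2 * 0 = 0 from rfl, many_zero, a_zero]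
    simp
  have hinv := GEN.inv_of Q hQ
  obtain ⟨n, hn2⟩ : ∃ n, 2 * k = n + 1 := ⟨2 * k - 1, by omega⟩
  have hg2 : ∀ m, ((kfam d (G + 6) ha hinv).F (n + 2 * m)).card ≤
      (lz d (G + 6) ha).Δ ^ (2 * m) * ((kfam d (G + 6) ha hinv).F n).card := by
    intro m
    rw [kfam_card, kfam_card, ← hn2]
    have h1 := hG k (by omega) htyp m
    have e : n + 2 * m + 1 = 2 * (k + m) := by omega
    rw [e]
    refine h1.trans (Nat.mul_le_mul_right _ ?_)
    show G ^ m ≤ (G + 6) ^ (2 * m)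
    calc G ^ m ≤ (G + 6) ^ m := Nat.pow_le_pow_left (by omega) m
      _ ≤ (G + 6) ^ (2 * m) := Nat.pow_le_pow_right (by omega) (by omega)
  have h := tail_one (lz d (G + 6) ha) (kfam d (G + 6) ha hinv) y n hx hg2
  rw [kfam_card, ← many_eq, ← hn2, hKK] at h
  refine le_trans ?_ h
  unfold many
  refine Nat.cast_le.2 (Finset.card_le_card ?_)
  intro w hw
  rw [Finset.mem_filter] at hw ⊢
  refine ⟨hw.1, lt_of_le_of_lt ?_ hw.2⟩
  refine mul_le_mul_of_nonneg_right ?_ (by linarith)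
  exact pow_le_pow_left₀ (by linarith) (by linarith) _

/-- the tail at all lengths, for classes closed under connected sums -/
theorem tail_all (Q : List Dir → Prop) (hQ : KClass Q) (hne : ∃ w, SAP w ∧ Q w) (hc : CSum Q) :
    ∃ C : ℝ, 1 < C ∧ ∀ n : ℕ, ∀ (d : Dir) (y : ℕ) (x : ℝ), 0 ≤ x →
      (many Q d y (C ^ (1 + y) * (1 + x)) n : ℝ) ≤ Real.exp (-x) * (KN.a Q n : ℝ) := by
  obtain ⟨C, δ, hC, hδ0, hδ1, h⟩ := tail_n Q hQ hne
  obtain ⟨g1, -, g2⟩ := gr_bounds Q hQ hne
  have hlim := (class_sum Q hQ hne hc).1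
  have hev : ∀ᶠ j : ℕ in atTop, ((1 - δ) * gr Q) ^ (2 * j) ≤ (KN.a Q (2 * j) : ℝ) := by
    have h1 : (1 - δ) * gr Q < gr Q := by nlinarith
    filter_upwards [hlim.eventually_const_lt h1, eventually_gt_atTop 0] with j h2 hj
    have hj' : (0 : ℝ) < j := by exact_mod_cast hj
    calc _ ≤ ((pq Q (2 * j)) ^ (1 / (2 * j : ℝ))) ^ (2 * j) :=
          pow_le_pow_left₀ (mul_nonneg (by linarith) (by linarith)) h2.le _
      _ = pq Q (2 * j) := by
          rw [← Real.rpow_natCast, ← Real.rpow_mul (GEN.pn_nonneg _ _)]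
          push_cast
          rw [one_div_mul_cancel (by positivity), Real.rpow_one]
      _ ≤ _ := GEN.pn_le_a Q j hj
  obtain ⟨k0, hk0⟩ := eventually_atTop.1 hev
  have hk00 : (0 : ℝ) ≤ k0 := Nat.cast_nonneg _
  set C' := C + 2 * k0 with hC'
  have hC1 : 1 < C' := by linarith
  refine ⟨C', hC1, ?_⟩
  intro n d y x hx
  have hCp : C' ≤ C' ^ (1 + y) * (1 + x) := by
    calc C' = C' ^ 1 * 1 := by ring
      _ ≤ C' ^ (1 + y) * (1 + x) := mul_le_mul (pow_le_pow_right₀ hC1.le (by omega)) (by linarith)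
          zero_le_one (by positivity)
  by_cases hn : n < 2 * k0
  · have h0 : many Q d y (C' ^ (1 + y) * (1 + x)) n = 0 := by
      unfold many
      rw [Finset.card_eq_zero, Finset.filter_eq_empty_iff]
      intro w hw
      rw [mem_K] at hw
      push Not
      have h1 := near_le d y hw.2.1
      rw [hw.1] at h1
      have h2 : ((near d y w).ncard : ℝ) ≤ 2 * k0 := by
        exact_mod_cast h1.trans hn.le
      linarith
    rw [h0]
    simp only [Nat.cast_zero]
    positivity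
  rcases Nat.even_or_odd' n with ⟨k, rfl | rfl⟩
  swap
  · have h0 : KN.a Q (2 * k + 1) = 0 := a_odd _ _ (by omega)
    have h1 : many Q d y (C' ^ (1 + y) * (1 + x)) (2 * k + 1) = 0 := by
      have : many Q d y (C' ^ (1 + y) * (1 + x)) (2 * k + 1) ≤ KN.a Q (2 * k + 1) := by
        unfold many KN.a
        exact Finset.card_filter_le _ _
      omega
    rw [h0, h1]
    simp
  refine le_trans ?_ (h (2 * k) (hk0 k (by omega)) d y x hx)
  unfold many
  refine Nat.cast_le.2 (Finset.card_le_card ?_)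
  intro w hw
  rw [Finset.mem_filter] at hw ⊢
  refine ⟨hw.1, lt_of_le_of_lt ?_ hw.2⟩
  refine mul_le_mul_of_nonneg_right ?_ (by linarith)
  exact pow_le_pow_left₀ (by linarith) (by linarith) _

end Run7.h738.EX
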