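import Pool.Agent.Run7.h738.EX.Zd
import Pool.Agent.Run7.h738.PC.Trans

/-! # Pairs of mutually avoiding walks in a half-space -/

set_option autoImplicit false

namespace Run7.h738.EX

open scoped Classical ENNReal

section mean
variable {V : Type} (L : Lay V)

/-- the mean number of near-maximal sites -/
theorem mean_NM {D : Set V} (o : V) (hD : ∀ v ∈ D, L.up v ∈ D) (n y : ℕ) :
    ((∑ l ∈ WF L D o n, (NM L l y).card : ℕ) : ℝ) ≤
      3 * KK L ^ (1 + y) * ((WF L D o n).card : ℝ) := by
  set K := KK L ^ (1 + y) with hK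
  have hK0 : 0 < K := by
    have := KK_gt L
    positivity
  set F := WF L D o n with hF
  have h1 : ((∑ l ∈ F, (NM L l y).card : ℕ) : ℝ≥0∞) ≤
      ENNReal.ofReal (3 * K) * (F.card : ℝ≥0∞) := by
    rw [Nat.cast_sum]
    calc ∑ l ∈ F, ((NM L l y).card : ℝ≥0∞)
        ≤ ∑ l ∈ F, ENNReal.ofReal K *
          (1 + ∑' j : ℕ, if K * (1 + j) < (NM L l y).card then 1 else 0) :=
          Finset.sum_le_sum fun l _ => Run7.h738.PC.nat_le_ind hK0 _
      _ = ENNReal.ofReal K * ((F.card : ℝ≥0∞) +
          ∑' j : ℕ, ∑ l ∈ F, if K * (1 + j) < (NM L l y).card then (1 : ℝ≥0∞) else 0) := by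
          rw [← Finset.mul_sum, Finset.sum_add_distrib, Finset.sum_const, nsmul_eq_mul, mul_one,
            Summable.tsum_finsetSum (fun _ _ => ENNReal.summable)]
      _ ≤ ENNReal.ofReal K * ((F.card : ℝ≥0∞) +
          ∑' j : ℕ, ENNReal.ofReal (Real.exp (-(j : ℝ))) * (F.card : ℝ≥0∞)) := by
          gcongr with j
          rw [← Finset.sum_filter, Finset.sum_const, nsmul_eq_mul, mul_one]
          have h2 := tail_NM L (D := D) o hD n y (x := (j : ℝ)) (Nat.cast_nonneg j)
          rw [← hF, ← hK] at h2
          have h3 := ENNReal.ofReal_le_ofReal h2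
          rw [ENNReal.ofReal_natCast, ENNReal.ofReal_mul (Real.exp_pos _).le,
            ENNReal.ofReal_natCast] at h3
          exact h3
      _ = ENNReal.ofReal K * ((F.card : ℝ≥0∞) +
          (∑' j : ℕ, ENNReal.ofReal (Real.exp (-(j : ℝ)))) * (F.card : ℝ≥0∞)) := by
          rw [ENNReal.tsum_mul_right]
      _ ≤ ENNReal.ofReal K * ((F.card : ℝ≥0∞) + 2 * (F.card : ℝ≥0∞)) := by
          gcongr
          exact Run7.h738.PC.sum_exp
      _ = ENNReal.ofReal (3 * K) * (F.card : ℝ≥0∞) := by
          rw [ENNReal.ofReal_mul (by norm_num), show ENNReal.ofReal 3 = 3 by norm_num]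
          ring
  have h2 := ENNReal.toReal_mono (by finiteness) h1
  rw [ENNReal.toReal_natCast, ENNReal.toReal_mul, ENNReal.toReal_natCast,
    ENNReal.toReal_ofReal (by positivity)] at h2
  exact h2

end mean

section pairs
variable {V : Type} [AddCommGroup V] (L : Lay V)

/-- the half-space `h ≤ y` -/
def HP (y : ℕ) : Set V := {v | L.h v ≤ y}

/-- pairs of walks in the half-space, with `k` and `n - k` steps, which meet at `0` only -/
def PR (y n : ℕ) : Set (ℕ × List V × List V) :=
  {q | q.1 ≤ n ∧ q.2.1 ∈ WK L (HP L y) 0 q.1 ∧ q.2.2 ∈ WK L (HP L y) 0 (n - q.1) ∧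
    ∀ v ∈ q.2.1, v ∈ q.2.2 → v = 0}

theorem PR_finite (y n : ℕ) : (PR L y n).Finite := by
  have h : ((Finset.range (n + 1)).biUnion (fun k => ((({k} : Finset ℕ) ×ˢ
      ((WF L (HP L y) 0 k) ×ˢ (WF L (HP L y) 0 (n - k)))) : Finset (ℕ × List V × List V)))
      : Set (ℕ × List V × List V)).Finite := Finset.finite_toSet _
  refine h.subset ?_
  rintro ⟨k, a, b⟩ ⟨h1, h2, h3, -⟩
  rw [Finset.mem_coe, Finset.mem_biUnion]
  simp only at h1 h2 h3
  refine ⟨k, Finset.mem_range.2 (by omega), ?_⟩
  rw [Finset.mem_product, Finset.mem_product, Finset.mem_singleton, mem_WF, mem_WF]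
  exact ⟨rfl, h2, h3⟩

/-- the tail of a walk -/
theorem WK_cons {D : Set V} {k : ℕ} {a : List V} (ha : a ∈ WK L D 0 k) :
    a = 0 :: a.tail ∧ a.tail.length = k := by
  obtain ⟨h1, h2, -⟩ := ha
  cases a with
  | nil => simp at h1
  | cons v t =>
    simp only [List.head?_cons, Option.some.injEq] at h2
    rw [h2]
    simp only [List.length_cons, Nat.add_right_cancel_iff] at h1
    exact ⟨rfl, h1⟩

/-- the walk of a pair -/
noncomputable def glue (q : ℕ × List V × List V) : List V :=
  (q.2.1.tail.reverse ++ 0 :: q.2.2.tail).map (fun v => v - q.2.1.getLastD 0)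

variable (hadj : ∀ u v w : V, L.adj (v + u) (w + u) ↔ L.adj v w)
  (hh : ∀ u v : V, L.h (v + u) = L.h v + L.h u)

include hadj in
theorem glue_mem {y n : ℕ} {q : ℕ × List V × List V} (hq : q ∈ PR L y n) :
    glue q ∈ WK L Set.univ 0 n := by
  obtain ⟨k, a, b⟩ := q
  obtain ⟨h1, h2, h3, h4⟩ := hq
  simp only at h1 h2 h3 h4
  obtain ⟨ea, la⟩ := WK_cons L h2
  obtain ⟨eb, lb⟩ := WK_cons L h3
  set a' := a.tail with ha'
  set b' := b.tail with hb'
  set z := a.getLastD 0 with hz
  have hadj' : ∀ v w : V, L.adj v w → L.adj (v - z) (w - z) := by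
    intro v w h
    rw [← hadj z, sub_add_cancel, sub_add_cancel]
    exact h
  unfold glue
  simp only
  rw [← ha', ← hb', ← hz]
  refine ⟨?_, ?_, ?_, ?_, fun v _ => Set.mem_univ v⟩
  · simp only [List.length_map, List.length_append, List.length_reverse, List.length_cons, la, lb]
    omega
  · rw [List.head?_map]
    have e1 : (a'.reverse ++ 0 :: b').head? = some z := by
      cases h5 : a' with
      | nil =>
        rw [h5] at ea
        rw [hz, ea]
        rfl
      | cons v t =>
        have hne : (v :: t) ≠ [] := List.cons_ne_nil _ _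
        have e2 : z = (v :: t).getLast hne := by
          rw [hz, ea, h5, List.getLastD_cons, List.getLastD_eq_getLast?,
            List.getLast?_eq_some_getLast hne]
          rfl
        rw [List.head?_append, List.head?_reverse, List.getLast?_eq_some_getLast hne, e2]
        rfl
    rw [e1, Option.map_some, sub_self]
  · rw [List.isChain_map]
    have hc : (a'.reverse ++ 0 :: b').IsChain L.adj := by
      rw [List.isChain_split]
      constructor
      · have h5 := h2.2.2.1
        rw [ea] at h5
        have h6 : (a'.reverse ++ [0]) = (0 :: a').reverse := by simp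
        rw [h6, List.isChain_reverse]
        exact h5.imp fun v w h => L.symm _ _ h
      · rw [← eb]
        exact h3.2.2.1
    exact hc.imp fun v w h => hadj' v w h
  · refine List.Nodup.map (fun v w h => sub_left_injective h) ?_
    have na := h2.2.2.2.1
    have nb := h3.2.2.2.1
    rw [ea, List.nodup_cons] at na
    rw [eb] at nb
    rw [List.nodup_append]
    refine ⟨List.nodup_reverse.2 na.2, nb, ?_⟩
    intro v hv w hw hvw
    rw [List.mem_reverse] at hv
    subst hvw
    have h5 : v = 0 := h4 v (by rw [ea]; exact List.mem_cons_of_mem _ hv) (by rw [eb]; exact hw)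
    rw [h5] at hv
    exact na.1 hv

include hadj hh in
/-- the marked site is near-maximal -/
theorem glue_near {y n : ℕ} {q : ℕ × List V × List V} (hq : q ∈ PR L y n) :
    - q.2.1.getLastD 0 ∈ NM L (glue q) y ∧ site (0 : V) (glue q) q.1 = - q.2.1.getLastD 0 := by
  have hmem := glue_mem L hadj hq
  obtain ⟨k, a, b⟩ := q
  obtain ⟨h1, h2, h3, h4⟩ := hq
  simp only at h1 h2 h3 h4 hmem ⊢
  obtain ⟨ea, la⟩ := WK_cons L h2
  obtain ⟨eb, lb⟩ := WK_cons L h3
  have hg : glue (k, a, b) = (a.tail.reverse ++ 0 :: b.tail).map (fun v => v - a.getLastD 0) := rfl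
  set a' := a.tail with ha'
  set b' := b.tail with hb'
  set z := a.getLastD 0 with hz
  have hs : site (0 : V) (glue (k, a, b)) k = - z := by
    unfold site
    rw [hg, List.getD_eq_getElem?_getD, List.getElem?_map,
      List.getElem?_append_right (by simp [la]), List.length_reverse, la, Nat.sub_self]
    simp
  refine ⟨?_, hs⟩
  have hm : - z ∈ glue (k, a, b) := by
    rw [hg, List.mem_map]
    exact ⟨0, by simp, by simp⟩
  have hsub : ∀ v w : V, L.h (v - w) = L.h v - L.h w := by
    intro v w
    have := hh w (v - w)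
    rw [sub_add_cancel] at this
    omega
  have h00 : L.h (0 : V) = 0 := by
    have := hh 0 0
    simp at this
    exact this
  have hneg : L.h (-z) = - L.h z := by
    have := hsub 0 z
    rw [zero_sub, h00] at this
    omega
  unfold NM
  rw [Finset.mem_filter, List.mem_toFinset]
  refine ⟨hm, ?_⟩
  intro w hw
  rw [hg, List.mem_map] at hw
  obtain ⟨u, hu, rfl⟩ := hw
  rw [hsub, hneg]
  have hu2 : L.h u ≤ y := by
    rw [List.mem_append, List.mem_reverse] at hu
    rcases hu with hu | hu
    · exact h2.2.2.2.2 u (by rw [ea]; exact List.mem_cons_of_mem _ hu)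
    · rw [← eb] at hu
      exact h3.2.2.2.2 u hu
  omega

include hadj hh in
/-- the pair is a function of the walk and the marked site -/
theorem glue_injOn (y n : ℕ) : Set.InjOn
    (fun q : ℕ × List V × List V => (⟨glue q, - q.2.1.getLastD 0⟩ : Σ _ : List V, V))
    (PR L y n) := by
  rintro ⟨k, a, b⟩ hq ⟨k', a', b'⟩ hq' he
  have m1 := glue_mem L hadj hq
  have s1 := (glue_near L hadj hh hq).2
  have s2 := (glue_near L hadj hh hq').2
  obtain ⟨h1, h2, h3, h4⟩ := hq
  obtain ⟨h1', h2', h3', h4'⟩ := hq'
  simp only [Sigma.mk.injEq, heq_eq_eq] at he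
  obtain ⟨e1, e2⟩ := he
  simp only at h1 h2 h3 h1' h2' h3' s1 s2 e2
  rw [← e1, ← e2, ← s1] at s2
  have hk : k = k' := (site_inj L m1 h1' h1 s2).symm
  subst hk
  obtain ⟨ea, la⟩ := WK_cons L h2
  obtain ⟨eb, lb⟩ := WK_cons L h3
  obtain ⟨ea', la'⟩ := WK_cons L h2'
  obtain ⟨eb', lb'⟩ := WK_cons L h3'
  have e3 : a.getLastD 0 = a'.getLastD 0 := neg_injective e2
  unfold glue at e1
  simp only at e1
  rw [e3] at e1
  have e4 := (List.map_injective_iff.2 (fun v w h => sub_left_injective h)) e1
  have e5 := List.append_inj e4 (by simp [la, la'])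
  have e6 : a.tail = a'.tail := List.reverse_injective e5.1
  have e7 : b.tail = b'.tail := (List.cons.inj e5.2).2
  rw [ea, eb, ea', eb', e6, e7]

include hadj hh in
/-- upper bound for the number of pairs -/
theorem PR_le (y n : ℕ) : (PR L y n).ncard ≤ ∑ l ∈ WF L Set.univ (0 : V) n, (NM L l y).card := by
  rw [← Finset.card_sigma, ← Set.ncard_coe_finset]
  refine Set.ncard_le_ncard_of_injOn
    (fun q : ℕ × List V × List V => (⟨glue q, - q.2.1.getLastD 0⟩ : Σ _ : List V, V)) ?_
    (glue_injOn L hadj hh y n) (Finset.finite_toSet _)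
  intro q hq
  rw [Finset.mem_coe, Finset.mem_sigma, mem_WF]
  exact ⟨glue_mem L hadj hq, (glue_near L hadj hh hq).1⟩

include hadj hh in
/-- every walk gives a pair -/
theorem PR_ge (y n : ℕ) : (WF L Set.univ (0 : V) n).card ≤ (PR L y n).ncard := by
  rw [← Set.ncard_coe_finset]
  have hsub : ∀ v w : V, L.h (v - w) = L.h v - L.h w := by
    intro v w
    have := hh w (v - w)
    rw [sub_add_cancel] at this
    omega
  have hadj' : ∀ z v w : V, L.adj v w → L.adj (v - z) (w - z) := by
    intro z v w h
    rw [← hadj z, sub_add_cancel, sub_add_cancel]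
    exact h
  -- the pairs of a walk
  have key : ∀ l ∈ WK L Set.univ (0 : V) n, ∃ q ∈ PR L y n, glue q = l := by
    intro l hl
    obtain ⟨M, ⟨v, hv, hvM⟩, hM⟩ := exists_top L (WK_ne L hl)
    obtain ⟨A, B, rfl⟩ := List.append_of_mem hv
    obtain ⟨l1, l2, l3, l4, -⟩ := hl
    rw [List.length_append, List.length_cons] at l1
    have hmem : ∀ u ∈ A ++ v :: B, L.h (u - v) ≤ y := by
      intro u hu
      have := hM u hu
      rw [hsub]
      omega
    rw [List.isChain_split] at l3
    have hlast : ((v :: A.reverse).map (fun u => u - v)).getLastD 0 = 0 - v := by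
      cases h5 : A with
      | nil =>
        rw [h5] at l2
        simp only [List.nil_append, List.head?_cons, Option.some.injEq] at l2
        simp [l2]
      | cons u t =>
        rw [h5] at l2
        simp only [List.cons_append, List.head?_cons, Option.some.injEq] at l2
        rw [List.getLastD_eq_getLast?, List.getLast?_map, List.getLast?_cons,
          List.getLast?_reverse]
        simp [l2]
    refine ⟨(A.length, (v :: A.reverse).map (fun u => u - v), (v :: B).map (fun u => u - v)),
      ⟨by simp only; omega, ⟨?_, ?_, ?_, ?_, ?_⟩, ⟨?_, ?_, ?_, ?_, ?_⟩, ?_⟩, ?_⟩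
    · simp
    · simp
    · simp only
      rw [List.isChain_map]
      have h6 : (v :: A.reverse) = (A ++ [v]).reverse := by simp
      rw [h6]
      have h7 : (A ++ [v]).reverse.IsChain L.adj := by
        rw [List.isChain_reverse]
        exact l3.1.imp fun _ _ h => L.symm _ _ h
      exact h7.imp fun _ _ h => hadj' v _ _ h
    · refine List.Nodup.map (fun u w h => sub_left_injective h) ?_
      have h6 : (v :: A.reverse) = (A ++ [v]).reverse := by simp
      rw [h6, List.nodup_reverse]
      have h7 : A ++ v :: B = (A ++ [v]) ++ B := by simp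
      rw [h7, List.nodup_append] at l4
      exact l4.1
    · intro u hu
      simp only [List.mem_map, List.mem_cons, List.mem_reverse] at hu
      obtain ⟨w, hw, rfl⟩ := hu
      exact hmem w (by rcases hw with h | h <;> simp [h])
    · simp only [List.length_map, List.length_cons]
      omega
    · simp
    · simp only
      rw [List.isChain_map]
      exact l3.2.imp fun _ _ h => hadj' v _ _ h
    · refine List.Nodup.map (fun u w h => sub_left_injective h) ?_
      rw [List.nodup_append] at l4
      exact l4.2.1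
    · intro u hu
      simp only [List.mem_map, List.mem_cons] at hu
      obtain ⟨w, hw, rfl⟩ := hu
      exact hmem w (by rcases hw with h | h <;> simp [h])
    · intro u hu hu2
      simp only [List.mem_map, List.mem_cons, List.mem_reverse] at hu hu2
      obtain ⟨w, hw, rfl⟩ := hu
      obtain ⟨w2, hw2, h8⟩ := hu2
      have h9 : w2 = w := sub_left_injective h8
      rw [h9] at hw2
      rcases hw with rfl | hw
      · simp
      · exfalso
        rw [List.nodup_append] at l4
        exact l4.2.2 w hw w (by rcases hw2 with h | h <;> simp [h]) rfl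
    · unfold glue
      simp only
      rw [hlast]
      simp only [List.map_cons, List.tail_cons, sub_self]
      have h10 : ((A.reverse.map (fun u => u - v)).reverse ++ (0 : V) :: B.map (fun u => u - v)) =
          (A ++ v :: B).map (fun u => u - v) := by
        simp [List.map_reverse]
      rw [h10, List.map_map]
      conv_rhs => rw [← List.map_id (A ++ v :: B)]
      refine List.map_congr_left ?_
      intro u _
      simp
  choose! f hf using key
  refine Set.ncard_le_ncard_of_injOn f ?_ ?_ (PR_finite L y n)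
  · intro l hl
    rw [Finset.mem_coe, mem_WF] at hl
    exact (hf l hl).1
  · intro l hl l' hl' he
    rw [Finset.mem_coe, mem_WF] at hl hl'
    rw [← (hf l hl).2, ← (hf l' hl').2, he]

end pairs

end Run7.h738.EX
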