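import Pool.Agent.Run7.h738.EX.Tail

/-! # The cubic lattices -/

set_option autoImplicit false

namespace Run7.h738.EX

open scoped Classical

theorem NM_ncard {V : Type} (L : Lay V) (l : List V) (y : ℕ) :
    ({v | v ∈ l ∧ ∀ w ∈ l, L.h w ≤ L.h v + y} : Set V).ncard = (NM L l y).card := by
  rw [← Set.ncard_coe_finset]
  congr 1
  ext v
  unfold NM
  rw [Finset.mem_coe, Finset.mem_filter, List.mem_toFinset]
  rfl

theorem WF_ncard {V : Type} (L : Lay V) (D : Set V) (o : V) (n : ℕ) :
    (WK L D o n).ncard = (WF L D o n).card := by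
  rw [← Set.ncard_coe_finset]
  congr 1
  ext l
  rw [Finset.mem_coe, mem_WF]

/-- the tail, in terms of sets -/
theorem tail_set {V : Type} (L : Lay V) {D : Set V} (o : V) (hD : ∀ v ∈ D, L.up v ∈ D) (n y : ℕ)
    {x : ℝ} (hx : 0 ≤ x) :
    (({l | l ∈ WK L D o n ∧ KK L ^ (1 + y) * (1 + x) <
      (({v | v ∈ l ∧ ∀ w ∈ l, L.h w ≤ L.h v + y} : Set V).ncard : ℝ)} : Set (List V)).ncard : ℝ) ≤
      Real.exp (-x) * ((WK L D o n).ncard : ℝ) := by
  rw [WF_ncard]
  refine le_trans ?_ (tail_NM L (D := D) o hD n y hx)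
  rw [← Set.ncard_coe_finset, Nat.cast_le]
  refine Set.ncard_le_ncard ?_ (Finset.finite_toSet _)
  rintro l ⟨h1, h2⟩
  rw [Finset.mem_coe, Finset.mem_filter, mem_WF]
  refine ⟨h1, ?_⟩
  rw [NM_ncard] at h2
  exact h2

section
variable {d : ℕ}

/-- nearest neighbours of the cubic lattice -/
def nnb (v w : Fin d → ℤ) : Prop := ∑ i, |w i - v i| = 1

theorem unit_iff (u : Fin d → ℤ) : ∑ i, |u i| = 1 ↔
    ∃ i, u = Pi.single i 1 ∨ u = Pi.single i (-1) := by
  constructor
  · intro h
    obtain ⟨i, hi⟩ : ∃ i, u i ≠ 0 := by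
      by_contra hc
      push Not at hc
      simp [hc] at h
    have h1 : |u i| + ∑ j ∈ Finset.univ.erase i, |u j| = 1 := by
      rw [Finset.add_sum_erase Finset.univ (fun j => |u j|) (Finset.mem_univ i)]
      exact h
    have h2 : 0 ≤ ∑ j ∈ Finset.univ.erase i, |u j| := Finset.sum_nonneg fun j _ => abs_nonneg _
    have h3 : 1 ≤ |u i| := Int.one_le_abs hi
    have h4 : ∑ j ∈ Finset.univ.erase i, |u j| = 0 := by omega
    have h5 : ∀ j, j ≠ i → u j = 0 := by
      intro j hj
      have := (Finset.sum_eq_zero_iff_of_nonneg (fun j _ => abs_nonneg (u j))).1 h4 j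
        (Finset.mem_erase.2 ⟨hj, Finset.mem_univ j⟩)
      exact abs_eq_zero.1 this
    have h6 : |u i| = 1 := by omega
    refine ⟨i, ?_⟩
    rcases (abs_eq (by norm_num)).1 h6 with h7 | h7
    · left
      funext j
      rcases eq_or_ne j i with rfl | hj
      · simp [h7]
      · rw [h5 j hj, Pi.single_eq_of_ne hj]
    · right
      funext j
      rcases eq_or_ne j i with rfl | hj
      · simp [h7]
      · rw [h5 j hj, Pi.single_eq_of_ne hj]
  · rintro ⟨i, h | h⟩
    · rw [h, Finset.sum_eq_single i]
      · simp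
      · intro j _ hj
        rw [Pi.single_eq_of_ne hj, abs_zero]
      · intro h
        exact absurd (Finset.mem_univ i) h
    · rw [h, Finset.sum_eq_single i]
      · simp
      · intro j _ hj
        rw [Pi.single_eq_of_ne hj, abs_zero]
      · intro h
        exact absurd (Finset.mem_univ i) h

theorem nnb_iff (v w : Fin d → ℤ) : nnb v w ↔
    ∃ i, w = v + Pi.single i 1 ∨ w = v + Pi.single i (-1) := by
  have h := unit_iff (w - v)
  unfold nnb
  simp only [Pi.sub_apply] at h
  rw [h]
  simp only [sub_eq_iff_eq_add']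

theorem abs_s {s : ℤ} (hs : s = 1 ∨ s = -1) : s * s = 1 := by
  rcases hs with h | h <;> rw [h] <;> norm_num

/-- the cubic lattice, with the height `s x_j` -/
noncomputable def zd (j : Fin d) (s : ℤ) (hs : s = 1 ∨ s = -1) : Lay (Fin d → ℤ) where
  adj := nnb
  up := fun v => v + Pi.single j s
  h := fun v => s * v j
  p := 1
  nb := fun v => (Finset.univ.image (fun i => v + Pi.single i 1)) ∪
    (Finset.univ.image (fun i => v + Pi.single i (-1)))
  Δ := 2 * d
  hp := le_refl _
  hΔ := by
    have := j.pos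
    omega
  symm := by
    intro v w h
    unfold nnb at *
    rw [← h]
    refine Finset.sum_congr rfl fun i _ => ?_
    rw [abs_sub_comm]
  up_inj := add_left_injective _
  h_up := by
    intro v
    simp only [Pi.add_apply, Pi.single_eq_same]
    rw [mul_add, abs_s hs]
  adj_up := by
    intro v
    rw [nnb_iff]
    rcases hs with h | h
    · exact ⟨j, Or.inl (by rw [h])⟩
    · exact ⟨j, Or.inr (by rw [h])⟩
  hor := by
    intro v w h
    rw [nnb_iff] at h
    obtain ⟨i, h⟩ := h
    rcases eq_or_ne i j with rfl | hij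
    · right
      rcases hs with h1 | h1 <;> rcases h with h | h
      · left
        rw [h, h1]
      · right
        rw [h, h1, add_assoc, ← Pi.single_add]
        simp
      · right
        rw [h, h1, add_assoc, ← Pi.single_add]
        simp
      · left
        rw [h, h1]
    · left
      rcases h with h | h
      · rw [h, Pi.add_apply, Pi.single_eq_of_ne hij.symm, add_zero]
      · rw [h, Pi.add_apply, Pi.single_eq_of_ne hij.symm, add_zero]
  per := by
    intro v w h _
    simp only [Function.iterate_one]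
    unfold nnb at *
    rw [← h]
    refine Finset.sum_congr rfl fun i _ => ?_
    simp only [Pi.add_apply]
    congr 1
    ring
  mem_nb := by
    intro v w
    rw [nnb_iff, Finset.mem_union, Finset.mem_image, Finset.mem_image]
    constructor
    · rintro (⟨i, -, h⟩ | ⟨i, -, h⟩)
      · exact ⟨i, Or.inl h.symm⟩
      · exact ⟨i, Or.inr h.symm⟩
    · rintro ⟨i, h | h⟩
      · exact Or.inl ⟨i, Finset.mem_univ _, h.symm⟩
      · exact Or.inr ⟨i, Finset.mem_univ _, h.symm⟩
  nb_card := by
    intro v
    refine (Finset.card_union_le _ _).trans ?_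
    have h1 : (Finset.univ.image (fun i : Fin d => v + Pi.single i (1 : ℤ))).card ≤ d :=
      Finset.card_image_le.trans (by simp)
    have h2 : (Finset.univ.image (fun i : Fin d => v + Pi.single i (-1 : ℤ))).card ≤ d :=
      Finset.card_image_le.trans (by simp)
    omega

end

end Run7.h738.EX
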