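import Pool.Agent.Run7.h738.EX.Ins

/-! # Counting: exponential tail of the number of the near-maximal sites -/

set_option autoImplicit false

namespace Run7.h738.EX

open scoped Classical

variable {V : Type} (L : Lay V)

theorem exists_top {l : List V} (hl : l ≠ []) : ∃ M, IsTop L l M := by
  obtain ⟨v, hv, h⟩ := Finset.exists_max_image l.toFinset L.h (by rwa [List.toFinset_nonempty_iff])
  exact ⟨L.h v, ⟨v, List.mem_toFinset.1 hv, rfl⟩, fun w hw => h w (List.mem_toFinset.2 hw)⟩

theorem WK_ne {D : Set V} {o : V} {n : ℕ} {l : List V} (hl : l ∈ WK L D o n) : l ≠ [] := by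
  intro h
  have := hl.1
  rw [h] at this
  simp at this

/-- the height of the bumps -/
def kk (δ : ℕ) : ℕ := L.p * (δ / L.p + 1)

theorem kk_gt (δ : ℕ) : δ < kk L δ := by
  unfold kk
  have := Nat.lt_mul_div_succ δ (show 0 < L.p from L.hp)
  exact this

theorem kk_le (δ : ℕ) : kk L δ ≤ δ + L.p := by
  unfold kk
  have := Nat.mul_div_le δ L.p
  nlinarith

/-- the good edges of a class -/
noncomputable def XS (o : V) (l : List V) (n δ π : ℕ) : Finset ℕ :=
  (Finset.range n).filter (fun i => i % 2 = π ∧ ∃ M, IsTop L l M ∧ Gd L o l n M δ i)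

section
variable {D : Set V} {o : V}

theorem XS_ok {l : List V} {n δ π : ℕ} {M : ℤ} (hM : IsTop L l M) {S : Finset ℕ}
    (hS : S ⊆ XS L o l n δ π) : (∀ i ∈ S, Gd L o l n M δ i) ∧ (∀ i ∈ S, i % 2 = π) ∧
    ∀ i ∈ S, i + 1 ∉ S := by
  have h2 : ∀ i ∈ S, i % 2 = π := by
    intro i hi
    have := hS hi
    unfold XS at this
    rw [Finset.mem_filter] at this
    exact this.2.1
  refine ⟨fun i hi => ?_, h2, fun i hi hi1 => ?_⟩
  · have := hS hi
    unfold XS at this
    rw [Finset.mem_filter] at this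
    obtain ⟨-, -, M', h3, h4⟩ := this
    rw [IsTop_unique L hM h3]
    exact h4
  · have := h2 i hi
    have := h2 (i + 1) hi1
    omega

/-- double counting -/
theorem dbl (hD : ∀ v ∈ D, L.up v ∈ D) (n δ π r N : ℕ) (hr : 1 ≤ r) :
    ((WF L D o n).filter (fun l => N ≤ (XS L o l n δ π).card)).card * N.choose r ≤
      (WF L D o (n + 2 * kk L δ * r)).card := by
  set A := (WF L D o n).filter (fun l => N ≤ (XS L o l n δ π).card) with hA
  have hk1 : 1 ≤ kk L δ := by
    have := kk_gt L δ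
    omega
  have h1 : A.card * N.choose r ≤ (A.sigma (fun l => (XS L o l n δ π).powersetCard r)).card := by
    rw [Finset.card_sigma, ← smul_eq_mul, ← Finset.sum_const]
    refine Finset.sum_le_sum fun l hl => ?_
    rw [Finset.card_powersetCard]
    rw [hA, Finset.mem_filter] at hl
    exact Nat.choose_le_choose r hl.2
  refine h1.trans ?_
  refine Finset.card_le_card_of_injOn
    (fun q : (Σ _ : List V, Finset ℕ) => new L o q.1 n (kk L δ) q.2) ?_ ?_
  · rintro ⟨l, S⟩ hq
    rw [Finset.mem_coe, Finset.mem_sigma, Finset.mem_powersetCard] at hq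
    simp only at hq
    obtain ⟨h2, h3, h4⟩ := hq
    rw [hA, Finset.mem_filter, mem_WF] at h2
    obtain ⟨M, hM⟩ := exists_top L (WK_ne L h2.1)
    obtain ⟨s1, s2, s3⟩ := XS_ok L hM h3
    rw [Finset.mem_coe, mem_WF]
    have := new_mem L h2.1 hD (k := kk L δ) rfl hk1 s1 s3
    rw [h4] at this
    exact this
  · rintro ⟨l, S⟩ hq ⟨l', S'⟩ hq' he
    rw [Finset.mem_coe, Finset.mem_sigma, Finset.mem_powersetCard] at hq hq'
    simp only at hq hq' he
    obtain ⟨h2, h3, h4⟩ := hq
    obtain ⟨h2', h3', h4'⟩ := hq'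
    rw [hA, Finset.mem_filter, mem_WF] at h2 h2'
    obtain ⟨M, hM⟩ := exists_top L (WK_ne L h2.1)
    obtain ⟨M', hM'⟩ := exists_top L (WK_ne L h2'.1)
    obtain ⟨s1, s2, s3⟩ := XS_ok L hM h3
    obtain ⟨s1', s2', s3'⟩ := XS_ok L hM' h3'
    have hne : S.Nonempty := by
      rw [← Finset.card_pos, h4]
      exact hr
    have hne' : S'.Nonempty := by
      rw [← Finset.card_pos, h4']
      exact hr
    have t1 := new_top L h2.1 s1 hM (kk_gt L δ) hk1 hne
    have t2 := new_top L h2'.1 s1' hM' (kk_gt L δ) hk1 hne'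
    rw [← he] at t2
    have hMM : M = M' := by
      have := IsTop_unique L t1 t2
      omega
    subst hMM
    have f1 := new_filter L h2.1 s1 hM (kk_gt L δ)
    have f2 := new_filter L h2'.1 s1' hM' (kk_gt L δ)
    rw [← he, f1] at f2
    subst f2
    congr 1
    ext i
    constructor
    · intro hi
      have hg := s1 i hi
      have hp := s2 i hi
      rw [mem_S_iff L h2.1 hk1 s1' s2' hg hp, ← he]
      exact (mem_S_iff L h2.1 hk1 s1 s2 hg hp).1 hi
    · intro hi
      have hg := s1' i hi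
      have hp := s2' i hi
      rw [mem_S_iff L h2.1 hk1 s1 s2 hg hp, he]
      exact (mem_S_iff L h2.1 hk1 s1' s2' hg hp).1 hi

theorem choose_ge (b r : ℕ) : b ^ r ≤ ((1 + b) * r).choose r := by
  rcases Nat.eq_zero_or_pos r with h | h
  · subst h
    simp
  have h1 : (((((1 + b) * r) + 1 - r : ℕ) : ℚ) ^ r) / (r.factorial : ℚ) ≤
      (((1 + b) * r).choose r : ℚ) := Nat.pow_le_choose r ((1 + b) * r)
  have h2 : (r.factorial : ℚ) ≤ (r : ℚ) ^ r := by exact_mod_cast Nat.factorial_le_pow r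
  have h3 : (1 + b) * r + 1 - r = b * r + 1 := by
    have : (1 + b) * r = r + b * r := by ring
    omega
  rw [h3] at h1
  have h4 : (0 : ℚ) < r.factorial := by exact_mod_cast Nat.factorial_pos r
  rw [div_le_iff₀ h4] at h1
  have h5 : ((b : ℚ) * r) ^ r ≤ ((b * r + 1 : ℕ) : ℚ) ^ r := by
    refine pow_le_pow_left₀ (by positivity) ?_ r
    push_cast
    linarith
  have h6 : (b : ℚ) ^ r * (r : ℚ) ^ r ≤ (((1 + b) * r).choose r : ℚ) * (r : ℚ) ^ r := by
    rw [← mul_pow]
    exact (h5.trans h1).trans (mul_le_mul_of_nonneg_left h2 (Nat.cast_nonneg _))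
  have hr0 : (0 : ℚ) < (r : ℚ) ^ r := by positivity
  have h7 := le_of_mul_le_mul_right h6 hr0
  exact_mod_cast h7

/-- the tail of the number of the good edges of a class -/
theorem tail_class (hD : ∀ v ∈ D, L.up v ∈ D) (n δ π r : ℕ) (hr : 1 ≤ r) :
    3 ^ r * ((WF L D o n).filter
      (fun l => (1 + 3 * L.Δ ^ (2 * kk L δ)) * r ≤ (XS L o l n δ π).card)).card ≤
      (WF L D o n).card := by
  have h1 := dbl L (o := o) hD n δ π r ((1 + 3 * L.Δ ^ (2 * kk L δ)) * r) hr
  have h2 := choose_ge (3 * L.Δ ^ (2 * kk L δ)) r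
  have h3 := WF_add L D o n (2 * kk L δ * r)
  set A := ((WF L D o n).filter
      (fun l => (1 + 3 * L.Δ ^ (2 * kk L δ)) * r ≤ (XS L o l n δ π).card)).card with hA
  have hΔ : 0 < L.Δ ^ (2 * kk L δ * r) := Nat.pow_pos (by have := L.hΔ; omega)
  have h4 : A * (3 * L.Δ ^ (2 * kk L δ)) ^ r ≤ L.Δ ^ (2 * kk L δ * r) * (WF L D o n).card :=
    (Nat.mul_le_mul_left _ h2).trans (h1.trans h3)
  rw [mul_pow, ← pow_mul] at h4
  have h5 : L.Δ ^ (2 * kk L δ * r) * (3 ^ r * A) ≤
      L.Δ ^ (2 * kk L δ * r) * (WF L D o n).card := by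
    calc _ = A * (3 ^ r * L.Δ ^ (2 * kk L δ * r)) := by ring
      _ ≤ _ := h4
  exact Nat.le_of_mul_le_mul_left h5 hΔ

end

/-! ### Balls -/

/-- the ball of radius `ρ` -/
noncomputable def Ball (u : V) : ℕ → Finset V
  | 0 => {u}
  | ρ + 1 => Ball u ρ ∪ (Ball u ρ).biUnion L.nb

theorem Ball_card (u : V) (ρ : ℕ) : (Ball L u ρ).card ≤ (L.Δ + 1) ^ ρ := by
  induction ρ with
  | zero => simp [Ball]
  | succ ρ ih =>
    rw [Ball]
    refine (Finset.card_union_le _ _).trans ?_
    have h1 : ((Ball L u ρ).biUnion L.nb).card ≤ (Ball L u ρ).card * L.Δ := by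
      refine Finset.card_biUnion_le.trans ?_
      rw [← smul_eq_mul, ← Finset.sum_const]
      exact Finset.sum_le_sum fun v _ => L.nb_card v
    calc _ ≤ (Ball L u ρ).card + (Ball L u ρ).card * L.Δ := Nat.add_le_add_left h1 _
      _ = (Ball L u ρ).card * (L.Δ + 1) := by ring
      _ ≤ (L.Δ + 1) ^ ρ * (L.Δ + 1) := Nat.mul_le_mul_right _ ih
      _ = _ := (pow_succ _ _).symm

theorem Ball_mono (u : V) {ρ ρ' : ℕ} (h : ρ ≤ ρ') : Ball L u ρ ⊆ Ball L u ρ' := by
  induction ρ', h using Nat.le_induction with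
  | base => exact Finset.Subset.refl _
  | succ ρ' _ ih =>
    rw [Ball]
    exact ih.trans Finset.subset_union_left

theorem Ball_adj {u v w : V} {ρ : ℕ} (h : w ∈ Ball L u ρ) (h1 : L.adj w v) :
    v ∈ Ball L u (ρ + 1) := by
  rw [Ball, Finset.mem_union, Finset.mem_biUnion]
  exact Or.inr ⟨w, h, (L.mem_nb w v).2 h1⟩

theorem Ball_down {u v : V} {ρ t : ℕ} (h : L.up^[t] v ∈ Ball L u ρ) : v ∈ Ball L u (ρ + t) := by
  induction t generalizing ρ with
  | zero => exact h
  | succ t ih =>
    rw [Function.iterate_succ_apply'] at h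
    have h1 := Ball_adj L h (L.symm _ _ (L.adj_up _))
    have h2 := ih h1
    have e : ρ + 1 + t = ρ + (t + 1) := by ring
    rwa [e] at h2

/-- the centres -/
noncomputable def Zs (o : V) (l : List V) (n y : ℕ) : Finset V :=
  {o, site o l n} ∪ ((Finset.range (y + 1)).biUnion (fun δ =>
    ((XS L o l n δ 0) ∪ (XS L o l n δ 1)).image (site o l)))

theorem mem_Zs {o : V} {l : List V} {n y δ i : ℕ} (hδ : δ ≤ y) {M : ℤ} (hM : IsTop L l M)
    (hi : Gd L o l n M δ i) : site o l i ∈ Zs L o l n y := by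
  unfold Zs
  rw [Finset.mem_union]
  right
  rw [Finset.mem_biUnion]
  refine ⟨δ, Finset.mem_range.2 (by omega), ?_⟩
  refine Finset.mem_image_of_mem _ ?_
  rw [Finset.mem_union]
  unfold XS
  rw [Finset.mem_filter, Finset.mem_filter, Finset.mem_range]
  rcases Nat.mod_two_eq_zero_or_one i with h | h
  · exact Or.inl ⟨hi.1, h, M, hM, hi⟩
  · exact Or.inr ⟨hi.1, h, M, hM, hi⟩

/-- every near-maximal site is close to a good edge, or to an end point -/
theorem near_good {D : Set V} {o : V} {n : ℕ} {l : List V} (hl : l ∈ WK L D o n) {M : ℤ}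
    (hM : IsTop L l M) (y : ℕ) : ∀ δ : ℕ, δ ≤ y → ∀ v ∈ l, L.h v = M - δ →
      ∃ u ∈ Zs L o l n y, v ∈ Ball L u (2 * δ + 1) := by
  intro δ
  induction δ using Nat.strong_induction_on with
  | _ δ ih =>
    intro hδ v hv hvh
    by_cases htop : Top L l v
    swap
    · unfold Top at htop
      push Not at htop
      obtain ⟨t, ht, h1⟩ := htop
      have h2 := hM.2 _ h1
      rw [L.h_it] at h2
      obtain ⟨u, hu, h3⟩ := ih (δ - t) (by omega) (by omega) _ h1 (by
        rw [L.h_it, hvh]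
        push_cast [show t ≤ δ by omega]
        ring)
      exact ⟨u, hu, Ball_mono L u (by omega) (Ball_down L h3)⟩
    obtain ⟨i, hi, hvi⟩ := mem_site L hl hv
    rcases Nat.eq_zero_or_pos i with h0 | h0
    · refine ⟨v, ?_, Ball_mono L v (Nat.zero_le _) (by simp [Ball])⟩
      rw [hvi, h0, site_zero L hl]
      simp [Zs]
    rcases Nat.lt_or_ge i n with h1 | h1
    swap
    · refine ⟨v, ?_, Ball_mono L v (Nat.zero_le _) (by simp [Ball])⟩
      have : i = n := by omega
      rw [hvi, this]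
      simp [Zs]
    -- an inner site
    obtain ⟨j, rfl⟩ : ∃ j, i = j + 1 := ⟨i - 1, by omega⟩
    have a1 : L.adj v (site o l (j + 2)) := by
      rw [hvi]
      exact site_adj L hl h1
    have a2 : L.adj (site o l j) v := by
      rw [hvi]
      exact site_adj L hl (by omega)
    have m1 : site o l (j + 2) ∈ l := site_mem L hl h1
    have m2 : site o l j ∈ l := site_mem L hl (by omega)
    have hcase : L.h (site o l (j + 2)) = L.h v ∨ L.h (site o l j) = L.h v := by
      rcases L.hor _ _ a1 with h2 | h2 | h2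
      · exact Or.inl h2
      · exfalso
        refine htop 1 (le_refl _) ?_
        rw [Function.iterate_one, ← h2]
        exact m1
      · rcases L.hor _ _ (L.symm _ _ a2) with h3 | h3 | h3
        · exact Or.inr h3
        · exfalso
          refine htop 1 (le_refl _) ?_
          rw [Function.iterate_one, ← h3]
          exact m2
        · exfalso
          have h4 := L.up_inj (h2.symm.trans h3)
          have := site_inj L hl (by omega : j + 2 ≤ n) (by omega : j ≤ n) h4
          omega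
    -- a horizontal neighbour
    have key : ∀ q ∈ l, L.h q = L.h v → L.adj q v → ¬ Top L l q →
        ∃ u ∈ Zs L o l n y, v ∈ Ball L u (2 * δ + 1) := by
      intro q _ hqh hqa hqt
      unfold Top at hqt
      push Not at hqt
      obtain ⟨t, ht, h5⟩ := hqt
      have h6 := hM.2 _ h5
      rw [L.h_it, hqh] at h6
      obtain ⟨u, hu, h7⟩ := ih (δ - t) (by omega) (by omega) _ h5 (by
        rw [L.h_it, hqh, hvh]
        push_cast [show t ≤ δ by omega]
        ring)
      refine ⟨u, hu, ?_⟩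
      exact Ball_mono L u (by omega) (Ball_adj L (Ball_down L h7) hqa)
    rcases hcase with hc | hc
    · by_cases hqt : Top L l (site o l (j + 2))
      · refine ⟨site o l (j + 1), mem_Zs L hδ hM ⟨h1, ?_, ?_, ?_, hqt⟩, ?_⟩
        · rw [← hvi, hvh]
        · rw [hc, hvh]
        · rw [← hvi]
          exact htop
        · rw [hvi]
          exact Ball_mono L _ (Nat.zero_le _) (by simp [Ball])
      · exact key _ m1 hc (L.symm _ _ a1) hqt
    · by_cases hqt : Top L l (site o l j)
      · refine ⟨site o l j, mem_Zs L hδ hM ⟨by omega, ?_, ?_, hqt, ?_⟩, ?_⟩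
        · rw [hc, hvh]
        · rw [← hvi, hvh]
        · rw [← hvi]
          exact htop
        · refine Ball_mono L _ (by omega : 1 ≤ 2 * δ + 1) (Ball_adj L (ρ := 0) ?_ a2)
          simp [Ball]
      · exact key _ m2 hc a2 hqt

/-- the near-maximal sites -/
noncomputable def NM (l : List V) (y : ℕ) : Finset V :=
  l.toFinset.filter (fun v => ∀ w ∈ l, L.h w ≤ L.h v + y)

theorem NM_le {D : Set V} {o : V} {n : ℕ} {l : List V} (hl : l ∈ WK L D o n) (y : ℕ) :
    (NM L l y).card ≤ (2 + ∑ δ ∈ Finset.range (y + 1), ((XS L o l n δ 0).card +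
      (XS L o l n δ 1).card)) * (L.Δ + 1) ^ (2 * y + 1) := by
  obtain ⟨M, hM⟩ := exists_top L (WK_ne L hl)
  have h1 : NM L l y ⊆ (Zs L o l n y).biUnion (fun u => Ball L u (2 * y + 1)) := by
    intro v hv
    unfold NM at hv
    rw [Finset.mem_filter, List.mem_toFinset] at hv
    obtain ⟨hv1, hv2⟩ := hv
    obtain ⟨w, hw, hwM⟩ := hM.1
    have h2 := hv2 w hw
    have h3 := hM.2 v hv1
    obtain ⟨u, hu, h4⟩ := near_good L hl hM y (M - L.h v).toNat (by omega) v hv1 (by omega)
    rw [Finset.mem_biUnion]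
    exact ⟨u, hu, Ball_mono L u (by omega) h4⟩
  refine (Finset.card_le_card h1).trans (Finset.card_biUnion_le.trans ?_)
  have h2 : ∑ u ∈ Zs L o l n y, (Ball L u (2 * y + 1)).card ≤
      (Zs L o l n y).card * (L.Δ + 1) ^ (2 * y + 1) := by
    calc _ ≤ ∑ _u ∈ Zs L o l n y, (L.Δ + 1) ^ (2 * y + 1) :=
          Finset.sum_le_sum fun u _ => Ball_card L u _
      _ = _ := by rw [Finset.sum_const, smul_eq_mul]
  refine h2.trans (Nat.mul_le_mul_right _ ?_)
  unfold Zs
  refine (Finset.card_union_le _ _).trans (add_le_add Finset.card_le_two ?_)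
  refine Finset.card_biUnion_le.trans (Finset.sum_le_sum fun δ _ => ?_)
  exact Finset.card_image_le.trans (Finset.card_union_le _ _)

end Run7.h738.EX
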