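import Pool.Agent.Run7.h738.EX.Tail

/-! # Families of walks which are closed under the insertion of bumps -/

set_option autoImplicit false

namespace Run7.h738.EX

open scoped Classical

variable {V : Type} (L : Lay V)

/-- a family of walks closed under the insertion of bumps -/
structure Fam (o : V) where
  F : ℕ → Finset (List V)
  wk : ∀ n, ∀ l ∈ F n, l ∈ WK L Set.univ o n
  cl : ∀ n, ∀ l ∈ F n, ∀ (δ : ℕ) (M : ℤ) (S : Finset ℕ), (∀ i ∈ S, Gd L o l n M δ i) →
    (∀ i ∈ S, i + 1 ∉ S) → new L o l n (kk L δ) S ∈ F (n + 2 * kk L δ * S.card)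

section
variable {o : V} (P : Fam L o)

/-- the walks with many good edges of a class -/
noncomputable def Fam.A (r δ π n : ℕ) : Finset (List V) :=
  (P.F n).filter (fun l => (1 + 3 * L.Δ ^ (2 * kk L δ)) * r ≤ (XS L o l n δ π).card)

/-- double counting -/
theorem dblP (n δ π r N : ℕ) (hr : 1 ≤ r) :
    ((P.F n).filter (fun l => N ≤ (XS L o l n δ π).card)).card * N.choose r ≤
      (P.F (n + 2 * kk L δ * r)).card := by
  set A := (P.F n).filter (fun l => N ≤ (XS L o l n δ π).card) with hA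
  have hk1 : 1 ≤ kk L δ := by
    have := kk_gt L δ
    omega
  have h1 : A.card * N.choose r ≤ (A.sigma (fun l => (XS L o l n δ π).powersetCard r)).card := by
    rw [Finset.card_sigma, ← smul_eq_mul, ← Finset.sum_const]
    refine Finset.sum_le_sum fun l hl => ?_
    rw [Finset.card_powersetCard]
    rw [hA, Finset.mem_filter] at hl
    exact Nat.choose_le_choose r hl.2
  refine h1.trans ?_
  refine Finset.card_le_card_of_injOn
    (fun q : (Σ _ : List V, Finset ℕ) => new L o q.1 n (kk L δ) q.2) ?_ ?_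
  · rintro ⟨l, S⟩ hq
    rw [Finset.mem_coe, Finset.mem_sigma, Finset.mem_powersetCard] at hq
    simp only at hq
    obtain ⟨h2, h3, h4⟩ := hq
    rw [hA, Finset.mem_filter] at h2
    obtain ⟨M, hM⟩ := exists_top L (WK_ne L (P.wk n l h2.1))
    obtain ⟨s1, s2, s3⟩ := XS_ok L hM h3
    rw [Finset.mem_coe]
    have := P.cl n l h2.1 δ M S s1 s3
    rw [h4] at this
    exact this
  · rintro ⟨l, S⟩ hq ⟨l', S'⟩ hq' he
    rw [Finset.mem_coe, Finset.mem_sigma, Finset.mem_powersetCard] at hq hq'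
    simp only at hq hq' he
    obtain ⟨h2, h3, h4⟩ := hq
    obtain ⟨h2', h3', h4'⟩ := hq'
    rw [hA, Finset.mem_filter] at h2 h2'
    have w1 := P.wk n l h2.1
    have w1' := P.wk n l' h2'.1
    obtain ⟨M, hM⟩ := exists_top L (WK_ne L w1)
    obtain ⟨M', hM'⟩ := exists_top L (WK_ne L w1')
    obtain ⟨s1, s2, s3⟩ := XS_ok L hM h3
    obtain ⟨s1', s2', s3'⟩ := XS_ok L hM' h3'
    have hne : S.Nonempty := by
      rw [← Finset.card_pos, h4]
      exact hr
    have hne' : S'.Nonempty := by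
      rw [← Finset.card_pos, h4']
      exact hr
    have t1 := new_top L w1 s1 hM (kk_gt L δ) hk1 hne
    have t2 := new_top L w1' s1' hM' (kk_gt L δ) hk1 hne'
    rw [← he] at t2
    have hMM : M = M' := by
      have := IsTop_unique L t1 t2
      omega
    subst hMM
    have f1 := new_filter L w1 s1 hM (kk_gt L δ)
    have f2 := new_filter L w1' s1' hM' (kk_gt L δ)
    rw [← he, f1] at f2
    subst f2
    congr 1
    ext i
    constructor
    · intro hi
      have hg := s1 i hi
      have hp := s2 i hi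
      rw [mem_S_iff L w1 hk1 s1' s2' hg hp, ← he]
      exact (mem_S_iff L w1 hk1 s1 s2 hg hp).1 hi
    · intro hi
      have hg := s1' i hi
      have hp := s2' i hi
      rw [mem_S_iff L w1 hk1 s1 s2 hg hp, he]
      exact (mem_S_iff L w1 hk1 s1' s2' hg hp).1 hi

/-- the number of the walks of a class, times a power, is at most the number of longer walks -/
theorem classP (n δ π r : ℕ) (hr : 1 ≤ r) :
    (P.A L r δ π n).card * (3 * L.Δ ^ (2 * kk L δ)) ^ r ≤ (P.F (n + 2 * kk L δ * r)).card := by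
  have h1 := dblP L P n δ π r ((1 + 3 * L.Δ ^ (2 * kk L δ)) * r) hr
  have h2 := choose_ge (3 * L.Δ ^ (2 * kk L δ)) r
  exact (Nat.mul_le_mul_left _ h2).trans h1

/-- the tail of the number of the good edges of a class, for a single length -/
theorem tailP_one (n δ π r : ℕ) (hr : 1 ≤ r)
    (hg : ∀ m, (P.F (n + 2 * m)).card ≤ L.Δ ^ (2 * m) * (P.F n).card) :
    3 ^ r * (P.A L r δ π n).card ≤ (P.F n).card := by
  have h1 := classP L P n δ π r hr
  have h3 := hg (kk L δ * r)
  rw [← mul_assoc] at h3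
  set A := (P.A L r δ π n).card with hA
  have hΔ : 0 < L.Δ ^ (2 * kk L δ * r) := Nat.pow_pos (by have := L.hΔ; omega)
  have h4 := h1.trans h3
  rw [mul_pow, ← pow_mul] at h4
  have h5 : L.Δ ^ (2 * kk L δ * r) * (3 ^ r * A) ≤
      L.Δ ^ (2 * kk L δ * r) * (P.F n).card := by
    calc _ = A * (3 ^ r * L.Δ ^ (2 * kk L δ * r)) := by ring
      _ ≤ _ := h4
  exact Nat.le_of_mul_le_mul_left h5 hΔ

/-- the same for the generating function -/
theorem tailP_gen (δ π r N : ℕ) (hr : 1 ≤ r) {t : ℝ} (ht : 1 / (L.Δ : ℝ) ≤ t)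
    (hs : Summable (fun n => ((P.F n).card : ℝ) * t ^ n)) :
    3 ^ r * ∑ n ∈ Finset.range N, t ^ n * ((P.A L r δ π n).card : ℝ) ≤
      ∑' n, ((P.F n).card : ℝ) * t ^ n := by
  have hΔ : (1 : ℝ) ≤ L.Δ := by exact_mod_cast L.hΔ
  have ht0 : 0 < t := lt_of_lt_of_le (by positivity) ht
  set k := kk L δ with hk
  have h3 : (1 : ℝ) ≤ (L.Δ : ℝ) * t := by
    rw [div_le_iff₀ (by linarith)] at ht
    linarith
  have h4 : (1 : ℝ) ≤ ((L.Δ : ℝ) * t) ^ (2 * k * r) := one_le_pow₀ h3
  have hone : ∀ n, 3 ^ r * (t ^ n * ((P.A L r δ π n).card : ℝ)) ≤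
      ((P.F (n + 2 * k * r)).card : ℝ) * t ^ (n + 2 * k * r) := by
    intro n
    have h1 : (((P.A L r δ π n).card * (3 * L.Δ ^ (2 * k)) ^ r : ℕ) : ℝ) ≤
        ((P.F (n + 2 * k * r)).card : ℝ) := by exact_mod_cast classP L P n δ π r hr
    have h5 : (0 : ℝ) ≤ t ^ n * ((P.A L r δ π n).card : ℝ) := by positivity
    calc 3 ^ r * (t ^ n * ((P.A L r δ π n).card : ℝ))
        ≤ (3 ^ r * (t ^ n * ((P.A L r δ π n).card : ℝ))) * ((L.Δ : ℝ) * t) ^ (2 * k * r) :=
          le_mul_of_one_le_right (by positivity) h4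
      _ = (((P.A L r δ π n).card * (3 * L.Δ ^ (2 * k)) ^ r : ℕ) : ℝ) * t ^ (n + 2 * k * r) := by
          push_cast
          rw [mul_pow, mul_pow, ← pow_mul, pow_add]
          ring
      _ ≤ _ := mul_le_mul_of_nonneg_right h1 (by positivity)
  rw [Finset.mul_sum]
  refine (Finset.sum_le_sum fun n _ => hone n).trans ?_
  have hs2 : Summable (fun n => ((P.F (n + 2 * k * r)).card : ℝ) * t ^ (n + 2 * k * r)) :=
    (summable_nat_add_iff (f := fun n => ((P.F n).card : ℝ) * t ^ n) (2 * k * r)).2 hs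
  refine (hs2.sum_le_tsum _ (fun n _ => by positivity)).trans ?_
  have h6 := hs.sum_add_tsum_nat_add (2 * k * r)
  have h7 : 0 ≤ ∑ n ∈ Finset.range (2 * k * r), ((P.F n).card : ℝ) * t ^ n :=
    Finset.sum_nonneg fun n _ => by positivity
  linarith

/-- the walks with many near-maximal sites -/
noncomputable def Fam.B (x : ℝ) (y n : ℕ) : Finset (List V) :=
  (P.F n).filter (fun l => KK L ^ (1 + y) * (1 + x) < (NM L l y).card)

theorem B_sub (y n : ℕ) {x : ℝ} (hx : 0 ≤ x) : P.B L x y n ⊆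
    (Finset.range (y + 1)).biUnion (fun δ => P.A L (⌈x⌉₊ + y + 1) δ 0 n ∪
      P.A L (⌈x⌉₊ + y + 1) δ 1 n) := by
  intro l hl
  unfold Fam.B at hl
  rw [Finset.mem_filter] at hl
  obtain ⟨hl1, hl2⟩ := hl
  by_contra hc
  have hall : ∀ δ ∈ Finset.range (y + 1), (XS L o l n δ 0).card + (XS L o l n δ 1).card ≤
      2 * ((1 + 3 * L.Δ ^ (2 * (y + L.p))) * (⌈x⌉₊ + y + 1)) := by
    intro δ hδ
    have h1 : ∀ π, π = 0 ∨ π = 1 → (XS L o l n δ π).card ≤
        (1 + 3 * L.Δ ^ (2 * (y + L.p))) * (⌈x⌉₊ + y + 1) := by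
      intro π hπ
      by_contra hcc
      push Not at hcc
      apply hc
      rw [Finset.mem_biUnion]
      refine ⟨δ, hδ, ?_⟩
      rw [Finset.mem_range] at hδ
      have h2 : (1 + 3 * L.Δ ^ (2 * kk L δ)) * (⌈x⌉₊ + y + 1) ≤ (XS L o l n δ π).card := by
        refine le_trans (Nat.mul_le_mul_right _ ?_) hcc.le
        refine Nat.add_le_add_left (Nat.mul_le_mul_left _ ?_) _
        refine Nat.pow_le_pow_right (by have := L.hΔ; omega) ?_
        have := kk_le L δ
        omega
      rw [Finset.mem_union]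
      rcases hπ with rfl | rfl
      · exact Or.inl (Finset.mem_filter.2 ⟨hl1, h2⟩)
      · exact Or.inr (Finset.mem_filter.2 ⟨hl1, h2⟩)
    have h3 := h1 0 (Or.inl rfl)
    have h4 := h1 1 (Or.inr rfl)
    omega
  have h5 := NM_le L (P.wk n l hl1) y
  have h6 := Finset.sum_le_sum hall
  rw [Finset.sum_const, Finset.card_range, smul_eq_mul] at h6
  have h7 : (NM L l y).card ≤ (2 + 2 * (y + 1) * ((1 + 3 * L.Δ ^ (2 * (y + L.p))) *
      (⌈x⌉₊ + y + 1))) * (L.Δ + 1) ^ (2 * y + 1) := by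
    refine h5.trans (Nat.mul_le_mul_right _ ?_)
    refine Nat.add_le_add_left (h6.trans (le_of_eq ?_)) _
    ring
  have h8 := thr_le L y hx
  have h9 : ((NM L l y).card : ℝ) ≤ KK L ^ (1 + y) * (1 + x) :=
    le_trans (by exact_mod_cast h7) h8
  linarith

/-- the union bound -/
theorem unionP (y : ℕ) {x : ℝ} (hx : 0 ≤ x) (w : ℕ → ℝ) (hw : ∀ n, 0 ≤ w n) (s : Finset ℕ) (Z : ℝ)
    (h : ∀ δ π, 3 ^ (⌈x⌉₊ + y + 1) * ∑ n ∈ s, w n * ((P.A L (⌈x⌉₊ + y + 1) δ π n).card : ℝ) ≤ Z) :
    ∑ n ∈ s, w n * ((P.B L x y n).card : ℝ) ≤ Real.exp (-x) * Z := by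
  set r := ⌈x⌉₊ + y + 1 with hr
  have h3r : (0 : ℝ) < 3 ^ r := by positivity
  have hZ : 0 ≤ Z := by
    refine le_trans ?_ (h 0 0)
    exact mul_nonneg h3r.le (Finset.sum_nonneg fun n _ => mul_nonneg (hw n) (Nat.cast_nonneg _))
  have h1 : ∀ n ∈ s, w n * ((P.B L x y n).card : ℝ) ≤ ∑ δ ∈ Finset.range (y + 1),
      (w n * ((P.A L r δ 0 n).card : ℝ) + w n * ((P.A L r δ 1 n).card : ℝ)) := by
    intro n _
    have h2 := (Finset.card_le_card (B_sub L P y n hx)).trans Finset.card_biUnion_le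
    have h3 : ∑ δ ∈ Finset.range (y + 1), (P.A L r δ 0 n ∪ P.A L r δ 1 n).card ≤
        ∑ δ ∈ Finset.range (y + 1), ((P.A L r δ 0 n).card + (P.A L r δ 1 n).card) :=
      Finset.sum_le_sum fun δ _ => Finset.card_union_le _ _
    have h4 : ((P.B L x y n).card : ℝ) ≤ ∑ δ ∈ Finset.range (y + 1),
        (((P.A L r δ 0 n).card : ℝ) + ((P.A L r δ 1 n).card : ℝ)) := by
      exact_mod_cast h2.trans h3
    refine (mul_le_mul_of_nonneg_left h4 (hw n)).trans (le_of_eq ?_)
    rw [Finset.mul_sum]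
    exact Finset.sum_congr rfl fun δ _ => by ring
  refine (Finset.sum_le_sum h1).trans ?_
  rw [Finset.sum_comm]
  have h4 : ∑ δ ∈ Finset.range (y + 1), ∑ n ∈ s,
      (w n * ((P.A L r δ 0 n).card : ℝ) + w n * ((P.A L r δ 1 n).card : ℝ)) ≤
      ∑ _δ ∈ Finset.range (y + 1), 2 * (Z / 3 ^ r) := by
    refine Finset.sum_le_sum fun δ _ => ?_
    rw [Finset.sum_add_distrib]
    have e : ∀ π, ∑ n ∈ s, w n * ((P.A L r δ π n).card : ℝ) ≤ Z / 3 ^ r := by
      intro π
      rw [le_div_iff₀ h3r]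
      have := h δ π
      linarith
    linarith [e 0, e 1]
  rw [Finset.sum_const, Finset.card_range, nsmul_eq_mul] at h4
  refine h4.trans ?_
  have h5 : (2 * ((y : ℝ) + 1)) * Real.exp x ≤ 3 ^ r := by
    have h6 : Real.exp x ≤ 3 ^ ⌈x⌉₊ := by
      have h7 : Real.exp x ≤ Real.exp (⌈x⌉₊ : ℝ) := Real.exp_le_exp.2 (Nat.le_ceil x)
      have h8 : Real.exp (⌈x⌉₊ : ℝ) = Real.exp 1 ^ ⌈x⌉₊ := by
        rw [← Real.exp_nat_mul, mul_one]
      rw [h8] at h7
      refine h7.trans (pow_le_pow_left₀ (Real.exp_pos _).le ?_ _)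
      have := Real.exp_one_lt_d9
      linarith
    have h9 : 2 * ((y : ℝ) + 1) ≤ 3 ^ (y + 1) := by
      have h10 : 2 * (y + 1) ≤ 3 ^ (y + 1) := by
        clear * -
        induction y with
        | zero => norm_num
        | succ y ih =>
          rw [pow_succ]
          omega
      exact_mod_cast h10
    have e : (3 : ℝ) ^ r = 3 ^ (y + 1) * 3 ^ ⌈x⌉₊ := by
      rw [hr, ← pow_add]
      congr 1
      omega
    rw [e]
    exact mul_le_mul h9 h6 (Real.exp_pos _).le (by positivity)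
  rw [Real.exp_neg]
  have hexp := Real.exp_pos x
  calc ((y + 1 : ℕ) : ℝ) * (2 * (Z / 3 ^ r))
      = (2 * ((y : ℝ) + 1)) * Z / 3 ^ r := by push_cast; ring
    _ ≤ (Real.exp x)⁻¹ * Z := by
        rw [div_le_iff₀ h3r]
        have h6 : 2 * ((y : ℝ) + 1) ≤ (Real.exp x)⁻¹ * 3 ^ r := by
          rw [← div_eq_inv_mul, le_div_iff₀ hexp]
          exact h5
        calc (2 * ((y : ℝ) + 1)) * Z ≤ ((Real.exp x)⁻¹ * 3 ^ r) * Z :=
              mul_le_mul_of_nonneg_right h6 hZ
          _ = _ := by ring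

/-- **The tail, for a single length.** -/
theorem tail_one (y n : ℕ) {x : ℝ} (hx : 0 ≤ x)
    (hg : ∀ m, (P.F (n + 2 * m)).card ≤ L.Δ ^ (2 * m) * (P.F n).card) :
    ((P.B L x y n).card : ℝ) ≤ Real.exp (-x) * ((P.F n).card : ℝ) := by
  have h := unionP L P y hx (fun _ => 1) (fun _ => zero_le_one) {n} ((P.F n).card : ℝ) (by
    intro δ π
    rw [Finset.sum_singleton, one_mul]
    exact_mod_cast tailP_one L P n δ π (⌈x⌉₊ + y + 1) (by omega) hg)
  simpa using h

/-- **The tail, for the generating function.** -/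
theorem tail_gen (y : ℕ) {x t : ℝ} (hx : 0 ≤ x) (ht : 1 / (L.Δ : ℝ) ≤ t)
    (hs : Summable (fun n => ((P.F n).card : ℝ) * t ^ n)) :
    ∑' n, ((P.B L x y n).card : ℝ) * t ^ n ≤
      Real.exp (-x) * ∑' n, ((P.F n).card : ℝ) * t ^ n := by
  have hΔ : (1 : ℝ) ≤ L.Δ := by exact_mod_cast L.hΔ
  have ht0 : 0 < t := lt_of_lt_of_le (by positivity) ht
  refine Real.tsum_le_of_sum_range_le (fun n => by positivity) fun N => ?_
  have h := unionP L P y hx (fun n => t ^ n) (fun n => by positivity) (Finset.range N)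
    (∑' n, ((P.F n).card : ℝ) * t ^ n)
    (fun δ π => tailP_gen L P δ π (⌈x⌉₊ + y + 1) N (by omega) ht hs)
  refine le_trans (le_of_eq ?_) h
  exact Finset.sum_congr rfl fun n _ => mul_comm _ _

end

/-! ### One plaquette at a time -/

theorem LAB_split {k : ℕ} {S : Finset ℕ} {i n : ℕ} (hi : i < n) (hS : i ∉ S) :
    ∃ A B : List (ℕ × ℕ), LAB k S n = A ++ (i, 0) :: (i + 1, 0) :: B ∧
      LAB k (insert i S) n = A ++ (i, 0) :: (asc i k ++ (dsc (i + 1) k ++ (i + 1, 0) :: B)) := by
  have hlab : ∀ j, j ≠ i → lab k (insert i S) j = lab k S j := by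
    intro j hj
    unfold lab
    simp only [Finset.mem_insert, hj, false_or]
  have hLAB : ∀ j, j < i → LAB k (insert i S) j = LAB k S j := by
    intro j
    induction j with
    | zero =>
      intro h
      simp only [LAB]
      exact hlab 0 (by omega)
    | succ j ih =>
      intro h
      simp only [LAB]
      rw [ih (by omega), hlab _ (by omega)]
  have hi0 : lab k S i = [(i, 0)] := by
    unfold lab
    rw [if_neg hS]
  have hi1 : lab k (insert i S) i = (i, 0) :: (asc i k ++ dsc (i + 1) k) := by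
    unfold lab
    rw [if_pos (Finset.mem_insert_self _ _)]
  obtain ⟨A, hA1, hA2⟩ : ∃ A, LAB k S i = A ++ [(i, 0)] ∧
      LAB k (insert i S) i = A ++ (i, 0) :: (asc i k ++ dsc (i + 1) k) := by
    cases i with
    | zero => exact ⟨[], by simp only [LAB]; rw [hi0]; rfl, by simp only [LAB]; rw [hi1]; rfl⟩
    | succ i => exact ⟨LAB k S i, by simp only [LAB]; rw [hi0],
        by simp only [LAB]; rw [hi1, hLAB i (by omega)]⟩
  obtain ⟨m, rfl⟩ : ∃ m, n = i + 1 + m := ⟨n - (i + 1), by omega⟩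
  clear hi
  induction m with
  | zero =>
    refine ⟨A, if i + 1 ∈ S then asc (i + 1) k ++ dsc (i + 1 + 1) k else [], ?_, ?_⟩
    · simp only [LAB]
      rw [hA1]
      unfold lab
      simp
    · simp only [LAB]
      rw [hA2, hlab _ (by omega)]
      unfold lab
      simp
  | succ m ih =>
    obtain ⟨A', B', h1, h2⟩ := ih
    refine ⟨A', B' ++ lab k S (i + 1 + m + 1), ?_, ?_⟩
    · show LAB k S (i + 1 + m) ++ lab k S (i + 1 + m + 1) = _
      rw [h1]
      simp
    · show LAB k (insert i S) (i + 1 + m) ++ lab k (insert i S) (i + 1 + m + 1) = _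
      rw [h2, hlab _ (by omega)]
      simp

/-- a property of lists which is closed under the insertion of single plaquettes -/
def Step (P : List V → Prop) : Prop :=
  ∀ (A B : List V) (x y : V), P (A ++ x :: y :: B) → L.h x = L.h y →
    L.up x ∉ A ++ x :: y :: B → L.up y ∉ A ++ x :: y :: B →
    P (A ++ x :: L.up x :: L.up y :: y :: B)

theorem dsc_cons (i c : ℕ) : ∃ T, dsc i c ++ [(i, 0)] = (i, c) :: T := by
  cases c with
  | zero => exact ⟨[], rfl⟩
  | succ c => exact ⟨dsc i c ++ [(i, 0)], rfl⟩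

theorem asc_snoc (i c : ℕ) : ∃ T, (i, 0) :: asc i c = T ++ [(i, c)] := by
  cases c with
  | zero => exact ⟨[], rfl⟩
  | succ c => exact ⟨(i, 0) :: asc i c, rfl⟩

/-- a high bump -/
theorem tall {P : List V → Prop} (hP : Step L P) {g : ℕ → V} {k i : ℕ} {A B : List (ℕ × ℕ)}
    (h0 : P ((A ++ (i, 0) :: (i + 1, 0) :: B).map (put L g)))
    (hh : L.h (g i) = L.h (g (i + 1)))
    (hf : ∀ c, c < k → ∀ q ∈ A ++ (i, 0) :: (asc i c ++ (dsc (i + 1) c ++ (i + 1, 0) :: B)),
      put L g q ≠ put L g (i, c + 1) ∧ put L g q ≠ put L g (i + 1, c + 1)) :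
    ∀ c, c ≤ k → P ((A ++ (i, 0) :: (asc i c ++ (dsc (i + 1) c ++ (i + 1, 0) :: B))).map
      (put L g)) := by
  intro c
  induction c with
  | zero =>
    intro _
    exact h0
  | succ c ih =>
    intro hc
    have h1 := ih (by omega)
    have h2 := hf c (by omega)
    obtain ⟨T, hT⟩ := asc_snoc i c
    obtain ⟨T', hT'⟩ := dsc_cons (i + 1) c
    have e1 : A ++ (i, 0) :: (asc i c ++ (dsc (i + 1) c ++ (i + 1, 0) :: B)) =
        (A ++ T) ++ (i, c) :: (i + 1, c) :: (T' ++ B) := by
      calc A ++ (i, 0) :: (asc i c ++ (dsc (i + 1) c ++ (i + 1, 0) :: B))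
          = A ++ ((i, 0) :: asc i c) ++ ((dsc (i + 1) c ++ [(i + 1, 0)]) ++ B) := by simp
        _ = _ := by
          rw [hT, hT']
          simp
    have e2 : A ++ (i, 0) :: (asc i (c + 1) ++ (dsc (i + 1) (c + 1) ++ (i + 1, 0) :: B)) =
        (A ++ T) ++ (i, c) :: (i, c + 1) :: (i + 1, c + 1) :: (i + 1, c) :: (T' ++ B) := by
      calc A ++ (i, 0) :: (asc i (c + 1) ++ (dsc (i + 1) (c + 1) ++ (i + 1, 0) :: B))
          = A ++ ((i, 0) :: asc i c) ++ ([(i, c + 1), (i + 1, c + 1)] ++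
            ((dsc (i + 1) c ++ [(i + 1, 0)]) ++ B)) := by simp [asc, dsc]
        _ = _ := by
          rw [hT, hT']
          simp
    rw [e1] at h1 h2
    rw [e2]
    have hu : ∀ j, put L g (j, c + 1) = L.up (put L g (j, c)) := by
      intro j
      unfold put
      rw [Function.iterate_succ_apply']
    rw [List.map_append, List.map_cons, List.map_cons] at h1
    rw [List.map_append, List.map_cons, List.map_cons, List.map_cons, List.map_cons, hu, hu]
    refine hP _ _ _ _ h1 ?_ ?_ ?_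
    · unfold put
      rw [L.h_it, L.h_it]
      simp only
      rw [hh]
    · rw [← hu, ← List.map_cons (f := put L g), ← List.map_cons (f := put L g), ← List.map_append]
      intro h
      rw [List.mem_map] at h
      obtain ⟨q, hq, h⟩ := h
      exact (h2 q hq).1 h
    · rw [← hu, ← List.map_cons (f := put L g), ← List.map_cons (f := put L g), ← List.map_append]
      intro h
      rw [List.mem_map] at h
      obtain ⟨q, hq, h⟩ := h
      exact (h2 q hq).2 h

/-- the insertion of bumps, one plaquette at a time -/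
theorem new_step {P : List V → Prop} (hP : Step L P) {D : Set V} {o : V} {n : ℕ} {l : List V}
    (hl : l ∈ WK L D o n) (h0 : P l) {k : ℕ} {M : ℤ} {δ : ℕ} (S : Finset ℕ)
    (hS : ∀ i ∈ S, Gd L o l n M δ i) (hS2 : ∀ i ∈ S, i + 1 ∉ S) : P (new L o l n k S) := by
  induction S using Finset.induction_on with
  | empty =>
    have : new L o l n k ∅ = l := by
      conv_rhs => rw [← map_site L hl]
      unfold new
      have h1 : LAB k ∅ n = (List.range (n + 1)).map (fun i => (i, 0)) := by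
        rw [← LAB_filter k ∅ n]
        symm
        rw [List.filter_eq_self]
        intro q hq
        rw [mem_LAB] at hq
        simp at hq
        simp [hq.1]
      rw [h1, List.map_map]
      refine List.map_congr_left ?_
      intro i _
      simp [put]
    rw [this]
    exact h0
  | insert i S hi ih =>
    have ih' := ih (fun j hj => hS j (Finset.mem_insert_of_mem hj))
      (fun j hj h => hS2 j (Finset.mem_insert_of_mem hj) (Finset.mem_insert_of_mem h))
    obtain ⟨g1, g2, g3, g4, g5⟩ := hS i (Finset.mem_insert_self _ _)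
    obtain ⟨A, B, e1, e2⟩ := LAB_split (k := k) g1 hi
    unfold new at ih' ⊢
    rw [e1] at ih'
    rw [e2]
    refine tall L hP ih' (g2.trans g3.symm) ?_ k (le_refl _)
    intro c hc q hq
    have hA : ∀ q ∈ A ++ (i, 0) :: (i + 1, 0) :: B, q ∈ LAB k S n := by
      intro q hq
      rw [e1]
      exact hq
    have hq2 : q ∈ LAB k S n ∨ (q.1 = i ∧ 1 ≤ q.2 ∧ q.2 ≤ c) ∨ (q.1 = i + 1 ∧ 1 ≤ q.2 ∧ q.2 ≤ c) := by
      rw [List.mem_append, List.mem_cons, List.mem_append, List.mem_append, List.mem_cons, mem_asc,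
        mem_dsc] at hq
      rcases hq with h | h | h | h | h | h
      · exact Or.inl (hA q (by simp [h]))
      · exact Or.inl (hA q (by simp [h]))
      · exact Or.inr (Or.inl h)
      · exact Or.inr (Or.inr h)
      · exact Or.inl (hA q (by simp [h]))
      · exact Or.inl (hA q (by simp [h]))
    have hqok : q.1 ≤ n ∧ (q.2 = 0 ∨ Top L l (site o l q.1)) := by
      rcases hq2 with h | h | h
      · have := lab_ok L (fun j hj => hS j (Finset.mem_insert_of_mem hj)) h
        exact ⟨this.1, this.2.imp id (fun h => h.1)⟩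
      · rw [h.1]
        exact ⟨g1.le, Or.inr g4⟩
      · rw [h.1]
        exact ⟨g1, Or.inr g5⟩
    constructor
    · intro h
      have h2 : q = (i, c + 1) := put_inj L (l := l) (g := site o l) (n := n)
        (fun i hi => site_mem L hl hi) (fun i hi j hj => site_inj L hl hi hj) hqok.1 g1.le
        hqok.2 (Or.inr g4) h
      rw [h2] at hq2
      simp only [mem_LAB] at hq2
      rcases hq2 with (h3 | ⟨j, hj, h3, h4, h5⟩) | h3 | h3
      · omega
      · rcases h4 with h4 | h4
        · rw [h4] at hi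
          exact hi hj
        · refine hS2 j (Finset.mem_insert_of_mem hj) ?_
          rw [← h4]
          exact Finset.mem_insert_self _ _
      · omega
      · omega
    · intro h
      have h2 : q = (i + 1, c + 1) := put_inj L (l := l) (g := site o l) (n := n)
        (fun i hi => site_mem L hl hi) (fun i hi j hj => site_inj L hl hi hj) hqok.1 g1
        hqok.2 (Or.inr g5) h
      rw [h2] at hq2
      simp only [mem_LAB] at hq2
      rcases hq2 with (h3 | ⟨j, hj, h3, h4, h5⟩) | h3 | h3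
      · omega
      · rcases h4 with h4 | h4
        · refine hS2 i (Finset.mem_insert_self _ _) ?_
          rw [h4]
          exact Finset.mem_insert_of_mem hj
        · have h6 : i = j := by omega
          rw [h6] at hi
          exact hi hj
      · omega
      · omega

end Run7.h738.EX
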