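import Pool.Agent.Run7.h738.EX.Lay

/-! # The insertion map and its inverse -/

set_option autoImplicit false

namespace Run7.h738.EX

open scoped Classical

variable {V : Type} (L : Lay V)

/-- nothing above `v` is visited -/
def Top (l : List V) (v : V) : Prop := ∀ t, 1 ≤ t → L.up^[t] v ∉ l

/-- the site with the label `q` -/
def put (g : ℕ → V) (q : ℕ × ℕ) : V := L.up^[q.2] (g q.1)

theorem put_inj_aux {l : List V} {g : ℕ → V} {n : ℕ} (hg : ∀ i ≤ n, g i ∈ l)
    (hinj : ∀ i ≤ n, ∀ j ≤ n, g i = g j → i = j) {a b : ℕ × ℕ} (ha : a.1 ≤ n) (hb : b.1 ≤ n)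
    (htb : b.2 = 0 ∨ Top L l (g b.1)) (h : put L g a = put L g b) (hle : a.2 ≤ b.2) : a = b := by
  unfold put at h
  obtain ⟨c, hc⟩ : ∃ c, b.2 = a.2 + c := ⟨b.2 - a.2, by omega⟩
  rw [hc, Function.iterate_add_apply] at h
  have h1 := L.up_inj.iterate a.2 h
  rcases Nat.eq_zero_or_pos c with h0 | h0
  · subst h0
    simp only [Function.iterate_zero, id_eq] at h1
    exact Prod.ext (hinj _ ha _ hb h1) (by omega)
  · rcases htb with h2 | h2
    · omega
    · exact absurd (h1 ▸ hg _ ha) (h2 c h0)

theorem put_inj {l : List V} {g : ℕ → V} {n : ℕ} (hg : ∀ i ≤ n, g i ∈ l)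
    (hinj : ∀ i ≤ n, ∀ j ≤ n, g i = g j → i = j) {a b : ℕ × ℕ} (ha : a.1 ≤ n) (hb : b.1 ≤ n)
    (hta : a.2 = 0 ∨ Top L l (g a.1)) (htb : b.2 = 0 ∨ Top L l (g b.1))
    (h : put L g a = put L g b) : a = b := by
  rcases Nat.le_total a.2 b.2 with h1 | h1
  · exact put_inj_aux L hg hinj ha hb htb h h1
  · exact (put_inj_aux L hg hinj hb ha hta h.symm h1).symm

section
variable {D : Set V} {o : V} {n : ℕ} {l : List V}

/-- the site at the time `i` -/
def site (o : V) (l : List V) (i : ℕ) : V := l.getD i o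

theorem site_eq (hl : l ∈ WK L D o n) {i : ℕ} (hi : i ≤ n) :
    site o l i = l[i]'(by rw [hl.1]; omega) :=
  List.getD_eq_getElem _ _ (by rw [hl.1]; omega)

theorem site_mem (hl : l ∈ WK L D o n) {i : ℕ} (hi : i ≤ n) : site o l i ∈ l := by
  rw [site_eq L hl hi]
  exact List.getElem_mem _

theorem site_inj (hl : l ∈ WK L D o n) {i j : ℕ} (hi : i ≤ n) (hj : j ≤ n)
    (h : site o l i = site o l j) : i = j := by
  rw [site_eq L hl hi, site_eq L hl hj] at h
  exact (List.Nodup.getElem_inj_iff hl.2.2.2.1).1 h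

theorem site_adj (hl : l ∈ WK L D o n) {i : ℕ} (hi : i < n) :
    L.adj (site o l i) (site o l (i + 1)) := by
  rw [site_eq L hl hi.le, site_eq L hl hi]
  exact List.isChain_iff_getElem.1 hl.2.2.1 i (by rw [hl.1]; omega)

theorem site_zero (hl : l ∈ WK L D o n) : site o l 0 = o := by
  rw [site_eq L hl (Nat.zero_le n)]
  obtain ⟨h1, h2, -⟩ := hl
  match l, h1, h2 with
  | a :: t, _, h2 => simpa using h2

theorem mem_site (hl : l ∈ WK L D o n) {v : V} (hv : v ∈ l) : ∃ i ≤ n, v = site o l i := by
  obtain ⟨i, hi, h⟩ := List.getElem_of_mem hv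
  have h1 := hl.1
  exact ⟨i, by omega, by rw [site_eq L hl (by omega), h]⟩

theorem map_site (hl : l ∈ WK L D o n) : (List.range (n + 1)).map (site o l) = l := by
  have h1 := hl.1
  apply List.ext_getElem
  · rw [List.length_map, List.length_range, h1]
  · intro i h2 h3
    rw [List.getElem_map, List.getElem_range, site_eq L hl (by omega)]

/-- good edges: horizontal, at depth `δ` below the height `M`, with nothing above -/
def Gd (o : V) (l : List V) (n : ℕ) (M : ℤ) (δ i : ℕ) : Prop :=
  i < n ∧ L.h (site o l i) = M - δ ∧ L.h (site o l (i + 1)) = M - δ ∧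
    Top L l (site o l i) ∧ Top L l (site o l (i + 1))

/-- the new walk -/
noncomputable def new (o : V) (l : List V) (n k : ℕ) (S : Finset ℕ) : List V :=
  (LAB k S n).map (put L (site o l))

/-- sites of the labels -/
theorem lab_ok {k : ℕ} {S : Finset ℕ} {M : ℤ} {δ : ℕ} (hS : ∀ i ∈ S, Gd L o l n M δ i)
    {q : ℕ × ℕ} (hq : q ∈ LAB k S n) : q.1 ≤ n ∧ (q.2 = 0 ∨ (Top L l (site o l q.1) ∧
      L.h (site o l q.1) = M - δ ∧ 1 ≤ q.2 ∧ q.2 ≤ k)) := by
  rw [mem_LAB] at hq
  rcases hq with h | ⟨i, hi, h1, h2, h3⟩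
  · exact ⟨h.2, Or.inl h.1⟩
  · obtain ⟨g1, g2, g3, g4, g5⟩ := hS i hi
    rcases h2 with h2 | h2
    · rw [h2]
      exact ⟨g1.le, Or.inr ⟨g4, g2, h3⟩⟩
    · rw [h2]
      exact ⟨g1, Or.inr ⟨g5, g3, h3⟩⟩

theorem new_nodup (hl : l ∈ WK L D o n) {k : ℕ} {S : Finset ℕ} {M : ℤ} {δ : ℕ}
    (hS : ∀ i ∈ S, Gd L o l n M δ i) (hS2 : ∀ i ∈ S, i + 1 ∉ S) : (new L o l n k S).Nodup := by
  unfold new
  refine List.Nodup.map_on ?_ (LAB_nodup k hS2 n)
  intro a ha b hb hab
  obtain ⟨a1, a2⟩ := lab_ok L hS ha
  obtain ⟨b1, b2⟩ := lab_ok L hS hb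
  exact put_inj L (fun i hi => site_mem L hl hi) (fun i hi j hj => site_inj L hl hi hj) a1 b1
    (a2.imp id (fun h => h.1)) (b2.imp id (fun h => h.1)) hab

theorem asc_chain (g : ℕ → V) (i k : ℕ) :
    (asc i k).IsChain (fun a b => L.adj (put L g a) (put L g b)) := by
  induction k with
  | zero => exact List.isChain_nil
  | succ k ih =>
    simp only [asc]
    rw [List.isChain_append]
    refine ⟨ih, List.isChain_singleton _, ?_⟩
    intro x hx y hy
    cases k with
    | zero => simp [asc] at hx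
    | succ k =>
      rw [asc_getLast] at hx
      simp only [Option.mem_def, Option.some.injEq, List.head?_cons] at hx hy
      rw [← hx, ← hy]
      unfold put
      simp only
      rw [Function.iterate_succ_apply' L.up (k + 1)]
      exact L.adj_up _

theorem dsc_chain (g : ℕ → V) (i k : ℕ) :
    (dsc i k).IsChain (fun a b => L.adj (put L g a) (put L g b)) := by
  induction k with
  | zero => exact List.isChain_nil
  | succ k ih =>
    cases k with
    | zero => exact List.isChain_singleton _
    | succ k =>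
      rw [dsc, dsc, List.isChain_cons_cons]
      refine ⟨?_, ih⟩
      unfold put
      simp only
      rw [Function.iterate_succ_apply' L.up (k + 1)]
      exact L.symm _ _ (L.adj_up _)

theorem lab_chain (g : ℕ → V) {k : ℕ} (hk : 1 ≤ k) (S : Finset ℕ) (i : ℕ)
    (hi : i ∈ S → L.adj (L.up^[k] (g i)) (L.up^[k] (g (i + 1)))) :
    (lab k S i).IsChain (fun a b => L.adj (put L g a) (put L g b)) := by
  obtain ⟨k, rfl⟩ : ∃ k', k = k' + 1 := ⟨k - 1, by omega⟩
  unfold lab
  split_ifs with h
  · rw [List.isChain_cons]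
    refine ⟨?_, ?_⟩
    · intro y hy
      rw [List.head?_append] at hy
      have e : (asc i (k + 1)).head? = some (i, 1) := by
        clear hy hi
        induction k with
        | zero => rfl
        | succ k ih =>
          rw [asc, List.head?_append, ih (by omega)]
          rfl
      rw [e] at hy
      simp only [Option.mem_def, Option.some_or, Option.some.injEq] at hy
      rw [← hy]
      unfold put
      simp only [Function.iterate_zero, id_eq, Function.iterate_one]
      exact L.adj_up _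
    · rw [List.isChain_append]
      refine ⟨asc_chain L g i _, dsc_chain L g _ _, ?_⟩
      intro x hx y hy
      rw [asc_getLast] at hx
      rw [dsc] at hy
      simp only [Option.mem_def, Option.some.injEq, List.head?_cons] at hx hy
      rw [← hx, ← hy]
      exact hi h
  · exact List.isChain_singleton _

theorem LAB_chain (g : ℕ → V) {k : ℕ} (hk : 1 ≤ k) (S : Finset ℕ) (n : ℕ)
    (hi : ∀ i ∈ S, L.adj (L.up^[k] (g i)) (L.up^[k] (g (i + 1))))
    (hg : ∀ i < n, L.adj (g i) (g (i + 1))) :
    (LAB k S n).IsChain (fun a b => L.adj (put L g a) (put L g b)) := by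
  induction n with
  | zero => exact lab_chain L g hk S 0 (hi 0)
  | succ n ih =>
    simp only [LAB]
    rw [List.isChain_append]
    refine ⟨ih (fun i hi2 => hg i (by omega)), lab_chain L g hk S _ (hi _), ?_⟩
    intro x hx y hy
    rw [LAB_getLast hk] at hx
    unfold lab at hy
    simp only [Option.mem_def, Option.some.injEq, List.head?_cons] at hx hy
    rw [← hx, ← hy]
    split_ifs with h
    · unfold put
      simp only [Function.iterate_zero, id_eq, Function.iterate_one]
      exact L.symm _ _ (L.adj_up _)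
    · unfold put
      simp only [Function.iterate_zero, id_eq]
      exact hg n (by omega)

theorem up_D {D : Set V} (hD : ∀ v ∈ D, L.up v ∈ D) {v : V} (hv : v ∈ D) (t : ℕ) :
    L.up^[t] v ∈ D := by
  induction t with
  | zero => exact hv
  | succ t ih =>
    rw [Function.iterate_succ_apply']
    exact hD _ ih

/-- the new walk is a walk -/
theorem new_mem (hl : l ∈ WK L D o n) (hD : ∀ v ∈ D, L.up v ∈ D) {k m : ℕ} (hk : k = L.p * m)
    (hk1 : 1 ≤ k) {S : Finset ℕ} {M : ℤ} {δ : ℕ}
    (hS : ∀ i ∈ S, Gd L o l n M δ i) (hS2 : ∀ i ∈ S, i + 1 ∉ S) :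
    new L o l n k S ∈ WK L D o (n + 2 * k * S.card) := by
  have hSn : S.filter (fun i => i ≤ n) = S := by
    rw [Finset.filter_eq_self]
    intro i hi
    exact (hS i hi).1.le
  refine ⟨?_, ?_, ?_, new_nodup L hl hS hS2, ?_⟩
  · unfold new
    rw [List.length_map, LAB_length, hSn]
    ring
  · unfold new
    rw [List.head?_map, LAB_head]
    unfold put
    simp only [Option.map_some, Function.iterate_zero, id_eq]
    rw [site_zero L hl]
  · unfold new
    rw [List.isChain_map]
    refine LAB_chain L _ hk1 S n ?_ (fun i hi => site_adj L hl hi)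
    intro i hi
    obtain ⟨g1, g2, g3, -⟩ := hS i hi
    rw [hk]
    exact L.per_it m (site_adj L hl g1) (g2.trans g3.symm)
  · intro v hv
    unfold new at hv
    rw [List.mem_map] at hv
    obtain ⟨q, hq, rfl⟩ := hv
    have h1 := (lab_ok L hS hq).1
    exact up_D L hD (hl.2.2.2.2 _ (site_mem L hl h1)) _

/-- `M` is the maximal height -/
def IsTop (l : List V) (M : ℤ) : Prop := (∃ v ∈ l, L.h v = M) ∧ ∀ v ∈ l, L.h v ≤ M

theorem IsTop_unique {l : List V} {M M' : ℤ} (h : IsTop L l M) (h' : IsTop L l M') : M = M' := by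
  obtain ⟨⟨v, hv, h1⟩, h2⟩ := h
  obtain ⟨⟨v', hv', h1'⟩, h2'⟩ := h'
  have := h2 v' hv'
  have := h2' v hv
  omega

/-- the maximal height of the new walk -/
theorem new_top (hl : l ∈ WK L D o n) {k : ℕ} {S : Finset ℕ} {M : ℤ} {δ : ℕ}
    (hS : ∀ i ∈ S, Gd L o l n M δ i) (hM : IsTop L l M) (hδ : δ < k) (hk1 : 1 ≤ k)
    (hne : S.Nonempty) :
    IsTop L (new L o l n k S) (M - δ + k) := by
  constructor
  · obtain ⟨i, hi⟩ := hne
    obtain ⟨g1, g2, -⟩ := hS i hi
    refine ⟨put L (site o l) (i, k), ?_, ?_⟩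
    · unfold new
      rw [List.mem_map]
      exact ⟨(i, k), mem_LAB.2 (Or.inr ⟨i, hi, g1.le, Or.inl rfl, hk1, le_refl _⟩), rfl⟩
    · unfold put
      rw [L.h_it]
      simp only
      rw [g2]
  · intro v hv
    unfold new at hv
    rw [List.mem_map] at hv
    obtain ⟨q, hq, rfl⟩ := hv
    obtain ⟨h1, h2⟩ := lab_ok L hS hq
    unfold put
    rw [L.h_it]
    rcases h2 with h2 | ⟨-, h3, h4, h5⟩
    · rw [h2]
      have := hM.2 _ (site_mem L hl h1)
      push_cast
      omega
    · rw [h3]
      omega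

/-- the sites of the bumps, seen from the new walk, whose maximal height is `M'` -/
def Bmp (l' : List V) (M' : ℤ) (k : ℕ) (u : V) : Prop :=
  M' - k < L.h u ∧ ∃ s : ℕ, L.up^[s] u ∈ l' ∧ L.h (L.up^[s] u) = M'

theorem bmp_iff (hl : l ∈ WK L D o n) {k : ℕ} {S : Finset ℕ} {M : ℤ} {δ : ℕ}
    (hS : ∀ i ∈ S, Gd L o l n M δ i) (hM : IsTop L l M) (hδ : δ < k)
    {q : ℕ × ℕ} (hq : q ∈ LAB k S n) :
    Bmp L (new L o l n k S) (M - δ + k) k (put L (site o l) q) ↔ q.2 ≠ 0 := by
  obtain ⟨q1, q2⟩ := lab_ok L hS hq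
  constructor
  · rintro ⟨h1, s, h2, h3⟩ h0
    have e : put L (site o l) q = site o l q.1 := by
      unfold put
      rw [h0]
      rfl
    rw [e] at h1 h2 h3
    unfold new at h2
    rw [List.mem_map] at h2
    obtain ⟨q', hq', h4⟩ := h2
    obtain ⟨r1, r2⟩ := lab_ok L hS hq'
    rw [L.h_it] at h3
    rcases r2 with r2 | ⟨r2, r3, r4, r5⟩
    · -- an old site of too large height
      have h5 : L.h (put L (site o l) q') = M - δ + k := by
        rw [h4, L.h_it]
        exact h3
      unfold put at h5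
      rw [r2] at h5
      simp only [Function.iterate_zero, id_eq] at h5
      have := hM.2 _ (site_mem L hl r1)
      omega
    · have h5 : L.h (put L (site o l) q') = M - δ + k := by
        rw [h4, L.h_it]
        exact h3
      unfold put at h4 h5
      rw [L.h_it, r3] at h5
      have h6 : q'.2 = k := by omega
      rw [h6] at h4
      have hs : s < k := by omega
      obtain ⟨c, hc⟩ : ∃ c, k = s + c := ⟨k - s, by omega⟩
      rw [hc, Function.iterate_add_apply] at h4
      have h7 := L.up_inj.iterate s h4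
      have h8 : 1 ≤ c := by omega
      exact r2 c h8 (h7 ▸ site_mem L hl q1)
  · intro h0
    rcases q2 with q2 | ⟨q2, q3, q4, q5⟩
    · exact absurd q2 h0
    · refine ⟨?_, k - q.2, ?_, ?_⟩
      · unfold put
        rw [L.h_it, q3]
        omega
      · have e : L.up^[k - q.2] (put L (site o l) q) = put L (site o l) (q.1, k) := by
          unfold put
          simp only
          rw [← Function.iterate_add_apply]
          congr 2
          omega
        rw [e]
        unfold new
        rw [List.mem_map]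
        refine ⟨(q.1, k), ?_, rfl⟩
        rw [mem_LAB] at hq ⊢
        rcases hq with h | ⟨i, hi, h1, h2, h3⟩
        · exact absurd h.1 h0
        · exact Or.inr ⟨i, hi, h1, h2, by simp only; omega, le_refl _⟩
      · unfold put
        rw [L.h_it, L.h_it, q3]
        push_cast [q5]
        ring

/-- the old walk is a function of the new one -/
theorem new_filter (hl : l ∈ WK L D o n) {k : ℕ} {S : Finset ℕ} {M : ℤ} {δ : ℕ}
    (hS : ∀ i ∈ S, Gd L o l n M δ i) (hM : IsTop L l M) (hδ : δ < k) :
    (new L o l n k S).filter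
      (fun u => decide (¬ Bmp L (new L o l n k S) (M - δ + k) k u)) = l := by
  conv_rhs => rw [← map_site L hl]
  have h1 : (new L o l n k S).filter
      (fun u => decide (¬ Bmp L (new L o l n k S) (M - δ + k) k u)) =
      ((LAB k S n).filter (fun q => decide (q.2 = 0))).map (put L (site o l)) := by
    conv_lhs => rw [new]
    rw [List.filter_map]
    congr 1
    refine List.filter_congr ?_
    intro q hq
    simp only [Function.comp_apply]
    have h2 := bmp_iff L hl hS hM hδ hq
    unfold new at h2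
    rw [decide_eq_decide, h2, not_not]
  rw [h1, LAB_filter, List.map_map]
  refine List.map_congr_left ?_
  intro i _
  simp [put]

/-- the good edges which were used are seen in the new walk -/
theorem mem_S_iff (hl : l ∈ WK L D o n) {k : ℕ} (hk1 : 1 ≤ k) {S : Finset ℕ} {M : ℤ} {δ π : ℕ}
    (hS : ∀ i ∈ S, Gd L o l n M δ i) (hπ : ∀ i ∈ S, i % 2 = π) {i : ℕ} (hi : Gd L o l n M δ i)
    (hiπ : i % 2 = π) : i ∈ S ↔ L.up^[k] (site o l i) ∈ new L o l n k S := by
  constructor
  · intro h
    unfold new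
    rw [List.mem_map]
    exact ⟨(i, k), mem_LAB.2 (Or.inr ⟨i, h, hi.1.le, Or.inl rfl, hk1, le_refl _⟩), rfl⟩
  · intro h
    unfold new at h
    rw [List.mem_map] at h
    obtain ⟨q, hq, h1⟩ := h
    obtain ⟨q1, q2⟩ := lab_ok L hS hq
    have h2 : q = (i, k) := by
      refine put_inj L (l := l) (g := site o l) (n := n) (fun i hi => site_mem L hl hi)
        (fun i hi j hj => site_inj L hl hi hj) q1 hi.1.le (q2.imp id (fun h => h.1)) ?_ h1
      exact Or.inr hi.2.2.2.1
    rw [h2, mem_LAB] at hq
    rcases hq with h3 | ⟨j, hj, h3, h4, h5⟩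
    · simp only at h3
      omega
    · simp only at h4
      have h6 := hπ j hj
      rcases h4 with h4 | h4
      · rw [h4]
        exact hj
      · exfalso
        omega

end

end Run7.h738.EX
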