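import Pool.Agent.Run7.h738.EX.Fam
import Pool.Agent.H246KN.INS

/-! # Polygons of a class of knot types as a family of walks -/

set_option autoImplicit false

namespace Run7.h738.EX

open scoped Classical
open KN

/-- the scalar product with a unit vector -/
def hgt (d : Dir) (v : Z3) : ℤ := v.1 * (vec d).1 + v.2.1 * (vec d).2.1 + v.2.2 * (vec d).2.2

theorem hgt_add (d : Dir) (v w : Z3) : hgt d (v + w) = hgt d v + hgt d w := by
  unfold hgt
  simp only [Prod.fst_add, Prod.snd_add]
  ring

theorem hgt_self (d : Dir) : hgt d (vec d) = 1 := by cases d <;> rfl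

theorem hgt_vec (d e : Dir) : hgt d (vec e) = 0 ∨ vec e = vec d ∨ vec e = - vec d := by
  cases d <;> cases e <;> first | (left; rfl) | (right; left; rfl) | (right; right; rfl)

theorem perp_of {d e : Dir} (h : hgt d (vec e) = 0) : perp d e := by
  revert h
  cases d <;> cases e <;> decide

/-- the simple cubic lattice, with the height in the direction `d` -/
noncomputable def lz (d : Dir) (a : ℕ) (ha : 6 ≤ a) : Lay Z3 where
  adj := fun v w => ∃ e : Dir, w = v + vec e
  up := fun v => v + vec d
  h := hgt d
  p := 1
  nb := fun v => Finset.univ.image (fun e => v + vec e)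
  Δ := a
  hp := le_refl _
  hΔ := by omega
  symm := by
    rintro v w ⟨e, rfl⟩
    refine ⟨neg e, ?_⟩
    rw [vec_neg]
    abel
  up_inj := add_left_injective _
  h_up := by
    intro v
    rw [hgt_add, hgt_self]
  adj_up := fun v => ⟨d, rfl⟩
  hor := by
    rintro v w ⟨e, rfl⟩
    rcases hgt_vec d e with h | h | h
    · left
      rw [hgt_add, h, add_zero]
    · right
      left
      rw [h]
    · right
      right
      rw [h]
      abel
  per := by
    rintro v w ⟨e, rfl⟩ _
    refine ⟨e, ?_⟩
    simp only [Function.iterate_one]
    abel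
  mem_nb := by
    intro v w
    rw [Finset.mem_image]
    constructor
    · rintro ⟨e, -, h⟩
      exact ⟨e, h.symm⟩
    · rintro ⟨e, h⟩
      exact ⟨e, Finset.mem_univ _, h.symm⟩
  nb_card := by
    intro v
    refine Finset.card_image_le.trans ?_
    refine le_trans (le_of_eq ?_) ha
    rfl

/-- the sites of a polygon, in the order of the walk, starting at `0` -/
def lw (w : List Dir) : List Z3 := (path w).tail.reverse

theorem lw_length (w : List Dir) : (lw w).length = w.length := by
  unfold lw
  rw [List.length_reverse, List.length_tail, path_length]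
  rfl

theorem path_cons (w : List Dir) : path w = pos w :: (path w).tail := by
  cases w <;> rfl

/-- the sites of the list are the sites of the polygon -/
theorem mem_lw {w : List Dir} (hw : SAP w) (v : Z3) : v ∈ lw w ↔ v ∈ path w := by
  unfold lw
  rw [List.mem_reverse]
  constructor
  · exact List.mem_of_mem_tail
  · intro h
    rw [path_cons, List.mem_cons] at h
    rcases h with h | h
    · have hne : (path w).tail ≠ [] := by
        intro h0
        have h1 := congrArg List.length h0
        rw [List.length_tail, path_length] at h1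
        have := hw.1
        simp only [List.length_nil] at h1
        omega
      have h1 : (path w).getLast (path_ne_nil w) = (path w).tail.getLast hne := by
        rw [List.getLast_tail]
      rw [path_getLast] at h1
      rw [h, hw.2.1, h1]
      exact List.getLast_mem hne
    · exact h

theorem path_inj : ∀ w w' : List Dir, path w = path w' → w = w' := by
  intro w
  induction w with
  | nil =>
    intro w' h
    cases w' with
    | nil => rfl
    | cons d w' =>
      have := congrArg List.length h
      rw [path_length, path_length] at this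
      simp at this
  | cons d w ih =>
    intro w' h
    cases w' with
    | nil =>
      have := congrArg List.length h
      rw [path_length, path_length] at this
      simp at this
    | cons d' w' =>
      simp only [path, List.cons.injEq] at h
      have h1 := ih w' h.2
      subst h1
      have h2 := vec_inj (add_left_cancel h.1)
      rw [h2]

theorem lw_inj {w w' : List Dir} (hw : SAP w) (hw' : SAP w') (h : lw w = lw w') : w = w' := by
  apply path_inj
  unfold lw at h
  rw [path_cons w, path_cons w', List.reverse_injective h, hw.2.1, hw'.2.1]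

theorem lw_chain (d : Dir) (a : ℕ) (ha : 6 ≤ a) (w : List Dir) : (lw w).IsChain (lz d a ha).adj := by
  unfold lw
  rw [List.isChain_reverse]
  refine List.IsChain.tail ?_
  induction w with
  | nil => exact List.isChain_singleton _
  | cons e w ih =>
    simp only [path]
    rw [List.isChain_cons]
    refine ⟨?_, ih⟩
    intro y hy
    rw [path_cons] at hy
    simp only [List.head?_cons, Option.mem_def, Option.some.injEq] at hy
    rw [← hy]
    exact ⟨e, rfl⟩

theorem lw_head {w : List Dir} (hw : SAP w) : (lw w).head? = some 0 := by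
  unfold lw
  rw [List.head?_reverse]
  have hne : (path w).tail ≠ [] := by
    intro h0
    have h1 := congrArg List.length h0
    rw [List.length_tail, path_length] at h1
    have := hw.1
    simp only [List.length_nil] at h1
    omega
  rw [List.getLast?_eq_some_getLast hne]
  have h1 : (path w).getLast (path_ne_nil w) = (path w).tail.getLast hne := by
    rw [List.getLast_tail]
  rw [← h1, path_getLast]

theorem lw_mem (d : Dir) (a : ℕ) (ha : 6 ≤ a) {w : List Dir} (hw : SAP w) {n : ℕ}
    (hn : w.length = n + 1) : lw w ∈ WK (lz d a ha) Set.univ 0 n := by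
  refine ⟨?_, lw_head hw, lw_chain d a ha w, ?_, fun v _ => Set.mem_univ v⟩
  · rw [lw_length, hn]
  · unfold lw
    rw [List.nodup_reverse]
    exact hw.2.2

/-- the lists of the polygons of a class -/
def IsP (Q : List Dir → Prop) (l : List Z3) : Prop := ∃ w, SAP w ∧ Q w ∧ l = lw w

/-- the path after an insertion -/
theorem path_ins (l1 l2 : List Dir) (e d : Dir) : ∃ A0 : List Z3, A0.length = l1.length ∧
    path (l1 ++ e :: l2) = A0 ++ (pos l2 + vec e) :: path l2 ∧
    path (l1 ++ [neg d, e, d] ++ l2) =
      A0 ++ (pos l2 + vec e) :: (pos l2 + vec d + vec e) :: (pos l2 + vec d) :: path l2 := by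
  have e0 : l1 ++ [neg d, e, d] ++ l2 = l1 ++ (neg d :: e :: d :: l2) := by simp
  have hP : pos (neg d :: e :: d :: l2) = pos (e :: l2) := by
    simp only [pos, vec_neg]
    abel
  refine ⟨(path l1).dropLast.map (fun p => p + pos (e :: l2)), ?_, ?_, ?_⟩
  · rw [List.length_map, List.length_dropLast, path_length]
    rfl
  · rw [path_append]
    rfl
  · rw [e0, path_append, hP]
    congr 1
    show pos (neg d :: e :: d :: l2) :: (pos l2 + vec d + vec e) :: (pos l2 + vec d) :: path l2 = _
    rw [hP]
    rfl

theorem isP_step (d : Dir) (a : ℕ) (ha : 6 ≤ a) {Q : List Dir → Prop} (hQ : Inv Q) :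
    Step (lz d a ha) (IsP Q) := by
  rintro A B x y ⟨w, hw, hq, hlw⟩ hh hx hy
  have hpath : path w = 0 :: (B.reverse ++ y :: x :: A.reverse) := by
    rw [path_cons, hw.2.1]
    congr 1
    have h1 := congrArg List.reverse hlw
    unfold lw at h1
    rw [List.reverse_reverse] at h1
    rw [← h1]
    simp
  have hlen : w.length + 1 = 1 + (B.length + (1 + (1 + A.length))) := by
    rw [← path_length, hpath]
    simp
    ring
  set i := B.length + 1 with hi
  have hiw : i < w.length := by omega
  have hsplit : w = w.take i ++ w.getD i .xp :: w.drop (i + 1) := INS.split w i hiw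
  obtain ⟨A0, h1, h2, h3⟩ := path_ins (w.take i) (w.drop (i + 1)) (w.getD i .xp) d
  rw [← hsplit, hpath] at h2
  have hA0 : A0.length = i := by
    rw [h1, List.length_take]
    omega
  have h4 : (0 : Z3) :: (B.reverse ++ y :: x :: A.reverse) =
      (0 :: B.reverse) ++ y :: x :: A.reverse := rfl
  rw [h4] at h2
  have h5 := List.append_inj h2 (by simp [hA0, hi])
  obtain ⟨h6, h7⟩ := h5
  rw [path_cons (w.drop (i + 1))] at h7
  simp only [List.cons.injEq] at h7
  obtain ⟨h8, h9, h10⟩ := h7
  set e := w.getD i .xp with he
  rw [← h9] at h8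
  have hperp : perp d e := by
    refine perp_of ?_
    have h11 : hgt d x = hgt d y := hh
    rw [h8, hgt_add] at h11
    omega
  have hnot : ∀ v, v ∉ A ++ x :: y :: B → v ∉ path w := by
    intro v hv hv2
    rw [← mem_lw hw, ← hlw] at hv2
    exact hv hv2
  have hsite : KN.site w i d := by
    refine ⟨hiw, hperp, ?_, ?_⟩
    · rw [← h9]
      exact hnot _ hx
    · rw [← h9]
      have : x + vec d + vec e = y + vec d := by
        rw [h8]
        abel
      rw [← he, this]
      exact hnot _ hy
  have hS := S_ins_proof w i d hw hsite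
  refine ⟨ins w i d, hS.1, (hQ w hw i d hsite).1 hq, ?_⟩
  unfold lw ins
  rw [← he, h3, ← h6, path_cons (w.drop (i + 1)), ← h9, ← h10, ← h8]
  simp only [lz, List.cons_append, List.tail_cons, List.reverse_append, List.reverse_cons,
    List.reverse_reverse, List.append_assoc, List.nil_append]
  have : x + vec d + vec e = y + vec d := by
    rw [h8]
    abel
  rw [this]

/-- the family of the polygons of a class -/
noncomputable def kfam (d : Dir) (a : ℕ) (ha : 6 ≤ a) {Q : List Dir → Prop} (hQ : Inv Q) :
    Fam (lz d a ha) (0 : Z3) where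
  F := fun n => (K Q (n + 1)).image lw
  wk := by
    intro n l hl
    rw [Finset.mem_image] at hl
    obtain ⟨w, hw, rfl⟩ := hl
    rw [mem_K] at hw
    exact lw_mem d a ha hw.2.1 hw.1
  cl := by
    intro n l hl δ M S hS hS2
    rw [Finset.mem_image] at hl
    obtain ⟨w, hw, rfl⟩ := hl
    rw [mem_K] at hw
    have hWK := lw_mem d a ha hw.2.1 hw.1
    obtain ⟨w', h1, h2, h3⟩ := new_step (lz d a ha) (isP_step d a ha hQ) hWK
      ⟨w, hw.2.1, hw.2.2, rfl⟩ (k := kk (lz d a ha) δ) S hS hS2
    have h4 := new_mem (lz d a ha) hWK (fun v _ => Set.mem_univ _) (k := kk (lz d a ha) δ) rfl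
      (by have := kk_gt (lz d a ha) δ; omega) hS hS2
    rw [Finset.mem_image]
    refine ⟨w', ?_, h3.symm⟩
    rw [mem_K]
    refine ⟨?_, h1, h2⟩
    rw [← lw_length, ← h3]
    exact h4.1

theorem kfam_card (d : Dir) (a : ℕ) (ha : 6 ≤ a) {Q : List Dir → Prop} (hQ : Inv Q) (n : ℕ) :
    ((kfam d a ha hQ).F n).card = KN.a Q (n + 1) := by
  show ((K Q (n + 1)).image lw).card = _
  rw [Finset.card_image_of_injOn]
  · rfl
  · intro w hw w' hw' h
    rw [Finset.mem_coe, mem_K] at hw hw'
    exact lw_inj hw.2.1 hw'.2.1 h

end Run7.h738.EX
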