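import Mathlib

/-! # Layered graphs and the insertion of high bumps into self-avoiding walks -/

set_option autoImplicit false

namespace Run7.h738.EX

open scoped Classical

/-- a graph with a height function and a period-`p` translation along vertical lines -/
structure Lay (V : Type) where
  adj : V → V → Prop
  up : V → V
  h : V → ℤ
  p : ℕ
  nb : V → Finset V
  Δ : ℕ
  hp : 1 ≤ p
  hΔ : 1 ≤ Δ
  symm : ∀ v w, adj v w → adj w v
  up_inj : Function.Injective up
  h_up : ∀ v, h (up v) = h v + 1
  adj_up : ∀ v, adj v (up v)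
  hor : ∀ v w, adj v w → h w = h v ∨ w = up v ∨ v = up w
  per : ∀ v w, adj v w → h v = h w → adj (up^[p] v) (up^[p] w)
  mem_nb : ∀ v w, w ∈ nb v ↔ adj v w
  nb_card : ∀ v, (nb v).card ≤ Δ

variable {V : Type} (L : Lay V)

theorem Lay.h_it (t : ℕ) (v : V) : L.h (L.up^[t] v) = L.h v + t := by
  induction t with
  | zero => simp
  | succ t ih =>
    rw [Function.iterate_succ_apply', L.h_up, ih]
    push_cast
    ring

theorem Lay.per_it (m : ℕ) {v w : V} (h1 : L.adj v w) (h2 : L.h v = L.h w) :
    L.adj (L.up^[L.p * m] v) (L.up^[L.p * m] w) := by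
  induction m with
  | zero => simpa using h1
  | succ m ih =>
    have e : L.p * (m + 1) = L.p + L.p * m := by ring
    rw [e, Function.iterate_add_apply, Function.iterate_add_apply]
    refine L.per _ _ ih ?_
    rw [L.h_it, L.h_it, h2]

/-- the self-avoiding walks in a domain, as lists -/
def WK (D : Set V) (o : V) (n : ℕ) : Set (List V) :=
  {l | l.length = n + 1 ∧ l.head? = some o ∧ l.IsChain L.adj ∧ l.Nodup ∧ ∀ v ∈ l, v ∈ D}

theorem WK_succ_sub (D : Set V) (o : V) (n : ℕ) (F : Finset (List V))
    (hF : WK L D o n ⊆ (F : Set (List V))) :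
    WK L D o (n + 1) ⊆ ((F.biUnion (fun l => (L.nb (l.getLastD o)).image (fun w => l ++ [w])) :
      Finset (List V)) : Set (List V)) := by
  rintro l ⟨h1, h2, h3, h4, h5⟩
  have hne : l ≠ [] := by
    intro h
    rw [h] at h1
    simp at h1
  have hsplit := List.dropLast_append_getLast hne
  set l' := l.dropLast with hl'
  set w := l.getLast hne with hw
  have hlen : l'.length = n + 1 := by
    rw [hl', List.length_dropLast, h1]
    omega
  have hne' : l' ≠ [] := by
    intro h
    rw [h] at hlen
    simp at hlen
  rw [← hsplit] at h2 h3 h4 h5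
  have h6 := List.isChain_append.1 h3
  have hmem : l' ∈ WK L D o n := by
    refine ⟨hlen, ?_, h6.1, ?_, fun v hv => h5 v (List.mem_append_left _ hv)⟩
    · cases h7 : l' with
      | nil => exact absurd h7 hne'
      | cons a t =>
        rw [h7] at h2
        simpa using h2
    · exact (List.nodup_append.1 h4).1
  rw [Finset.mem_coe, Finset.mem_biUnion]
  refine ⟨l', hF hmem, ?_⟩
  rw [Finset.mem_image]
  refine ⟨w, ?_, hsplit⟩
  rw [L.mem_nb]
  refine h6.2.2 _ ?_ _ ?_
  · rw [List.getLastD_eq_getLast?, List.getLast?_eq_some_getLast hne']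
    simp
  · simp

theorem WK_finite (D : Set V) (o : V) (n : ℕ) : (WK L D o n).Finite := by
  induction n with
  | zero =>
    refine (Set.finite_singleton [o]).subset ?_
    rintro l ⟨h1, h2, -⟩
    match l, h1, h2 with
    | [a], _, h2 =>
      simp only [List.head?_cons, Option.some.injEq] at h2
      rw [h2]
      rfl
  | succ n ih =>
    refine (Finset.finite_toSet _).subset (WK_succ_sub L D o n ih.toFinset ?_)
    intro l hl
    rw [Finset.mem_coe, Set.Finite.mem_toFinset]
    exact hl

/-- the walks as a finite set -/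
noncomputable def WF (D : Set V) (o : V) (n : ℕ) : Finset (List V) := (WK_finite L D o n).toFinset

theorem mem_WF {D : Set V} {o : V} {n : ℕ} {l : List V} : l ∈ WF L D o n ↔ l ∈ WK L D o n := by
  unfold WF
  rw [Set.Finite.mem_toFinset]

theorem WF_succ (D : Set V) (o : V) (n : ℕ) : (WF L D o (n + 1)).card ≤ L.Δ * (WF L D o n).card := by
  have h1 := WK_succ_sub L D o n (WF L D o n) (fun l hl => Finset.mem_coe.2 ((mem_WF L).2 hl))
  have h2 : WF L D o (n + 1) ⊆ ((WF L D o n).biUnion (fun l =>
      (L.nb (l.getLastD o)).image (fun w => l ++ [w]))) := by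
    intro l hl
    exact Finset.mem_coe.1 (h1 ((mem_WF L).1 hl))
  refine (Finset.card_le_card h2).trans (Finset.card_biUnion_le.trans ?_)
  calc _ ≤ ∑ _l ∈ WF L D o n, L.Δ :=
        Finset.sum_le_sum fun l _ => Finset.card_image_le.trans (L.nb_card _)
    _ = _ := by rw [Finset.sum_const, smul_eq_mul, mul_comm]

theorem WF_add (D : Set V) (o : V) (n m : ℕ) :
    (WF L D o (n + m)).card ≤ L.Δ ^ m * (WF L D o n).card := by
  induction m with
  | zero => simp
  | succ m ih =>
    calc _ ≤ L.Δ * (WF L D o (n + m)).card := WF_succ L D o (n + m)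
      _ ≤ L.Δ * (L.Δ ^ m * (WF L D o n).card) := Nat.mul_le_mul_left _ ih
      _ = _ := by ring

/-! ### Labels -/

/-- the ascending part of a bump -/
def asc (i : ℕ) : ℕ → List (ℕ × ℕ)
  | 0 => []
  | k + 1 => asc i k ++ [(i, k + 1)]

/-- the descending part of a bump -/
def dsc (i : ℕ) : ℕ → List (ℕ × ℕ)
  | 0 => []
  | k + 1 => (i, k + 1) :: dsc i k

theorem mem_asc {i k : ℕ} {q : ℕ × ℕ} : q ∈ asc i k ↔ q.1 = i ∧ 1 ≤ q.2 ∧ q.2 ≤ k := by
  induction k with
  | zero =>
    simp only [asc, List.not_mem_nil, false_iff]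
    omega
  | succ k ih =>
    simp only [asc, List.mem_append, ih, List.mem_singleton]
    constructor
    · rintro (h | h)
      · omega
      · rw [h]
        simp
    · intro h
      rcases Nat.lt_or_ge k q.2 with h1 | h1
      · right
        exact Prod.ext h.1 (by simp only; omega)
      · left
        omega

theorem mem_dsc {i k : ℕ} {q : ℕ × ℕ} : q ∈ dsc i k ↔ q.1 = i ∧ 1 ≤ q.2 ∧ q.2 ≤ k := by
  induction k with
  | zero =>
    simp only [dsc, List.not_mem_nil, false_iff]
    omega
  | succ k ih =>
    simp only [dsc, List.mem_cons, ih]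
    constructor
    · rintro (h | h)
      · rw [h]
        simp
      · omega
    · intro h
      rcases Nat.lt_or_ge k q.2 with h1 | h1
      · left
        exact Prod.ext h.1 (by simp only; omega)
      · right
        omega

theorem asc_length (i k : ℕ) : (asc i k).length = k := by
  induction k with
  | zero => rfl
  | succ k ih => simp [asc, ih]

theorem dsc_length (i k : ℕ) : (dsc i k).length = k := by
  induction k with
  | zero => rfl
  | succ k ih => simp [dsc, ih]

theorem asc_nodup (i k : ℕ) : (asc i k).Nodup := by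
  induction k with
  | zero => exact List.nodup_nil
  | succ k ih =>
    simp only [asc]
    rw [List.nodup_append]
    refine ⟨ih, List.nodup_singleton _, ?_⟩
    intro a ha b hb hab
    rw [List.mem_singleton] at hb
    rw [mem_asc] at ha
    rw [hab, hb] at ha
    simp only at ha
    omega

theorem dsc_nodup (i k : ℕ) : (dsc i k).Nodup := by
  induction k with
  | zero => exact List.nodup_nil
  | succ k ih =>
    simp only [dsc]
    rw [List.nodup_cons]
    refine ⟨?_, ih⟩
    rw [mem_dsc]
    simp

/-- the labels which belong to the time `i` -/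
noncomputable def lab (k : ℕ) (S : Finset ℕ) (i : ℕ) : List (ℕ × ℕ) :=
  (i, 0) :: (if i ∈ S then asc i k ++ dsc (i + 1) k else [])

/-- the labels of the new walk -/
noncomputable def LAB (k : ℕ) (S : Finset ℕ) : ℕ → List (ℕ × ℕ)
  | 0 => lab k S 0
  | n + 1 => LAB k S n ++ lab k S (n + 1)

theorem mem_lab {k : ℕ} {S : Finset ℕ} {i : ℕ} {q : ℕ × ℕ} : q ∈ lab k S i ↔
    q = (i, 0) ∨ (i ∈ S ∧ (q.1 = i ∨ q.1 = i + 1) ∧ 1 ≤ q.2 ∧ q.2 ≤ k) := by
  unfold lab
  rw [List.mem_cons]
  split_ifs with h
  · rw [List.mem_append, mem_asc, mem_dsc]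
    constructor
    · rintro (h1 | h1 | h1)
      · exact Or.inl h1
      · exact Or.inr ⟨h, Or.inl h1.1, h1.2⟩
      · exact Or.inr ⟨h, Or.inr h1.1, h1.2⟩
    · rintro (h1 | ⟨-, h1 | h1, h2⟩)
      · exact Or.inl h1
      · exact Or.inr (Or.inl ⟨h1, h2⟩)
      · exact Or.inr (Or.inr ⟨h1, h2⟩)
  · simp [h]

theorem mem_LAB {k : ℕ} {S : Finset ℕ} {n : ℕ} {q : ℕ × ℕ} : q ∈ LAB k S n ↔
    (q.2 = 0 ∧ q.1 ≤ n) ∨ (∃ i ∈ S, i ≤ n ∧ (q.1 = i ∨ q.1 = i + 1) ∧ 1 ≤ q.2 ∧ q.2 ≤ k) := by
  induction n with
  | zero =>
    simp only [LAB]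
    rw [mem_lab]
    constructor
    · rintro (h | h)
      · rw [h]
        simp
      · exact Or.inr ⟨0, h.1, le_refl _, h.2⟩
    · rintro (h | ⟨i, hi, h0, h⟩)
      · exact Or.inl (Prod.ext (by simp only; omega) h.1)
      · have : i = 0 := by omega
        subst this
        exact Or.inr ⟨hi, h⟩
  | succ n ih =>
    simp only [LAB]
    rw [List.mem_append, ih, mem_lab]
    constructor
    · rintro ((h | ⟨i, hi, h0, h⟩) | h | h)
      · exact Or.inl ⟨h.1, by omega⟩
      · exact Or.inr ⟨i, hi, by omega, h⟩
      · rw [h]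
        simp
      · exact Or.inr ⟨n + 1, h.1, le_refl _, h.2⟩
    · rintro (h | ⟨i, hi, h0, h⟩)
      · rcases Nat.lt_or_ge n q.1 with h1 | h1
        · exact Or.inr (Or.inl (Prod.ext (by simp only; omega) h.1))
        · exact Or.inl (Or.inl ⟨h.1, h1⟩)
      · rcases Nat.lt_or_ge n i with h1 | h1
        · have : i = n + 1 := by omega
          subst this
          exact Or.inr (Or.inr ⟨hi, h⟩)
        · exact Or.inl (Or.inr ⟨i, hi, h1, h⟩)

theorem lab_length (k : ℕ) (S : Finset ℕ) (i : ℕ) :
    (lab k S i).length = 1 + (if i ∈ S then 2 * k else 0) := by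
  unfold lab
  split_ifs
  · simp only [List.length_cons, List.length_append, asc_length, dsc_length]
    omega
  · simp

theorem LAB_length (k : ℕ) (S : Finset ℕ) (n : ℕ) :
    (LAB k S n).length = n + 1 + 2 * k * (S.filter (fun i => i ≤ n)).card := by
  induction n with
  | zero =>
    simp only [LAB]
    rw [lab_length]
    split_ifs with h
    · have : S.filter (fun i => i ≤ 0) = {0} := by
        ext i
        rw [Finset.mem_filter, Finset.mem_singleton]
        constructor
        · intro h1
          omega
        · rintro rfl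
          exact ⟨h, le_refl _⟩
      rw [this]
      simp
    · have : S.filter (fun i => i ≤ 0) = ∅ := by
        rw [Finset.filter_eq_empty_iff]
        intro i hi h0
        have : i = 0 := by omega
        subst this
        exact h hi
      rw [this]
      simp
  | succ n ih =>
    simp only [LAB]
    rw [List.length_append, ih, lab_length]
    split_ifs with h
    · have : S.filter (fun i => i ≤ n + 1) = insert (n + 1) (S.filter (fun i => i ≤ n)) := by
        ext i
        rw [Finset.mem_filter, Finset.mem_insert, Finset.mem_filter]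
        constructor
        · intro h1
          rcases Nat.lt_or_ge n i with h2 | h2
          · left
            omega
          · right
            exact ⟨h1.1, h2⟩
        · rintro (rfl | h1)
          · exact ⟨h, le_refl _⟩
          · exact ⟨h1.1, by omega⟩
      rw [this, Finset.card_insert_of_notMem (by
        rw [Finset.mem_filter]
        omega)]
      ring
    · have : S.filter (fun i => i ≤ n + 1) = S.filter (fun i => i ≤ n) := by
        ext i
        rw [Finset.mem_filter, Finset.mem_filter]
        constructor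
        · intro h1
          rcases Nat.lt_or_ge n i with h2 | h2
          · have : i = n + 1 := by omega
            subst this
            exact absurd h1.1 h
          · exact ⟨h1.1, h2⟩
        · intro h1
          exact ⟨h1.1, by omega⟩
      rw [this]
      ring

theorem lab_nodup (k : ℕ) (S : Finset ℕ) (i : ℕ) : (lab k S i).Nodup := by
  unfold lab
  rw [List.nodup_cons]
  split_ifs with h
  · refine ⟨?_, ?_⟩
    · rw [List.mem_append, mem_asc, mem_dsc]
      simp only
      omega
    · rw [List.nodup_append]
      refine ⟨asc_nodup _ _, dsc_nodup _ _, ?_⟩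
      intro a ha b hb hab
      rw [mem_asc] at ha
      rw [mem_dsc] at hb
      rw [hab] at ha
      omega
  · simp

theorem LAB_nodup (k : ℕ) {S : Finset ℕ} (hS : ∀ i ∈ S, i + 1 ∉ S) (n : ℕ) : (LAB k S n).Nodup := by
  induction n with
  | zero => exact lab_nodup k S 0
  | succ n ih =>
    simp only [LAB]
    rw [List.nodup_append]
    refine ⟨ih, lab_nodup _ _ _, ?_⟩
    intro a ha b hb hab
    subst hab
    rw [mem_LAB] at ha
    rw [mem_lab] at hb
    rcases hb with h | ⟨h1, h2, h3, h4⟩
    · rw [h] at ha
      simp only [true_and] at ha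
      rcases ha with h5 | ⟨i, hi, h5⟩
      · omega
      · omega
    · rcases ha with h5 | ⟨i, hi, h5, h6, h7⟩
      · omega
      · have h8 : i + 1 = n + 1 := by omega
        have := hS i hi
        rw [h8] at this
        exact this h1

theorem asc_getLast (i k : ℕ) : (asc i (k + 1)).getLast? = some (i, k + 1) := by
  simp [asc]

theorem dsc_getLast (i k : ℕ) : (dsc i (k + 1)).getLast? = some (i, 1) := by
  induction k with
  | zero => rfl
  | succ k ih =>
    rw [dsc, List.getLast?_cons, ih]
    rfl

theorem lab_getLast {k : ℕ} (hk : 1 ≤ k) (S : Finset ℕ) (i : ℕ) :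
    (lab k S i).getLast? = some (if i ∈ S then (i + 1, 1) else (i, 0)) := by
  obtain ⟨k, rfl⟩ : ∃ k', k = k' + 1 := ⟨k - 1, by omega⟩
  unfold lab
  split_ifs with h
  · rw [List.getLast?_cons, List.getLast?_append, dsc_getLast]
    rfl
  · rfl

theorem LAB_getLast {k : ℕ} (hk : 1 ≤ k) (S : Finset ℕ) (n : ℕ) :
    (LAB k S n).getLast? = some (if n ∈ S then (n + 1, 1) else (n, 0)) := by
  cases n with
  | zero => exact lab_getLast hk S 0
  | succ n =>
    simp only [LAB]
    rw [List.getLast?_append, lab_getLast hk S (n + 1)]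
    rfl

theorem LAB_head (k : ℕ) (S : Finset ℕ) (n : ℕ) : (LAB k S n).head? = some (0, 0) := by
  induction n with
  | zero => rfl
  | succ n ih =>
    simp only [LAB]
    rw [List.head?_append, ih]
    rfl

theorem LAB_filter (k : ℕ) (S : Finset ℕ) (n : ℕ) :
    (LAB k S n).filter (fun q => decide (q.2 = 0)) = (List.range (n + 1)).map (fun i => (i, 0)) := by
  have h1 : ∀ i, (lab k S i).filter (fun q => decide (q.2 = 0)) = [(i, 0)] := by
    intro i
    unfold lab
    rw [List.filter_cons_of_pos (by simp)]
    congr 1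
    rw [List.filter_eq_nil_iff]
    intro q hq
    simp only [decide_eq_true_eq]
    split_ifs at hq with h
    · rw [List.mem_append, mem_asc, mem_dsc] at hq
      omega
    · simp at hq
  induction n with
  | zero =>
    simp only [LAB]
    rw [h1]
    rfl
  | succ n ih =>
    simp only [LAB]
    rw [List.filter_append, ih, h1, List.range_succ (n := n + 1), List.map_append]
    rfl

end Run7.h738.EX
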