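import Pool.Agent.Run7.h738.EX.Pairs

/-! # Pairs of mutually avoiding walks in a half-space: visits near the boundary -/

set_option autoImplicit false

namespace Run7.h738.EX

open scoped Classical

/-- an elementary inequality -/
theorem nat_le_ind2 {K : ℝ} (hK : 0 < K) {x : ℝ} {n J : ℕ} (hJ : (n : ℝ) ≤ K * (1 + J))
    (hn : K * (1 + x) < n) :
    (n : ℝ) ≤ K * (1 + ∑ j ∈ Finset.range J, if K * (1 + max (j : ℝ) x) < n then (1 : ℝ) else 0) := by
  set m := ⌈(n : ℝ) / K⌉₊ - 1 with hm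
  have hmJ : m ≤ J := by
    have h1 : (n : ℝ) / K ≤ ((1 + J : ℕ) : ℝ) := by
      rw [div_le_iff₀ hK]
      push_cast
      linarith
    have h2 := Nat.ceil_le.2 h1
    omega
  have h1 : ∀ j ∈ Finset.range m, K * (1 + max (j : ℝ) x) < n := by
    intro j hj
    rw [Finset.mem_range] at hj
    have h2 : j + 1 < ⌈(n : ℝ) / K⌉₊ := by omega
    rw [Nat.lt_ceil, lt_div_iff₀ hK] at h2
    push_cast at h2
    rcases le_total (j : ℝ) x with h | h
    · rw [max_eq_right h]
      exact hn
    · rw [max_eq_left h]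
      linarith
  have h2 : (m : ℝ) ≤ ∑ j ∈ Finset.range J, if K * (1 + max (j : ℝ) x) < n then (1 : ℝ) else 0 := by
    have h3 : (m : ℝ) = ∑ j ∈ Finset.range m,
        if K * (1 + max (j : ℝ) x) < n then (1 : ℝ) else 0 := by
      rw [Finset.sum_congr rfl (fun j hj => if_pos (h1 j hj)), Finset.sum_const, Finset.card_range]
      simp
    rw [h3]
    refine Finset.sum_le_sum_of_subset_of_nonneg (Finset.range_subset_range.2 hmJ) ?_
    intro j _ _
    split_ifs <;> norm_num
  have h4 := Nat.le_ceil ((n : ℝ) / K)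
  rw [div_le_iff₀ hK] at h4
  have h5 : (⌈(n : ℝ) / K⌉₊ : ℝ) ≤ 1 + m := by
    have : ⌈(n : ℝ) / K⌉₊ ≤ 1 + m := by omega
    exact_mod_cast this
  nlinarith

/-- a sum of exponentials -/
theorem sum_exp_max (x : ℝ) (J : ℕ) :
    ∑ j ∈ Finset.range J, Real.exp (-(max (j : ℝ) x)) ≤ 3 * Real.exp (-(x / 2)) := by
  have hr : Real.exp (-(1 / 2)) ≤ 2 / 3 := by
    have h1 : (3 / 2 : ℝ) ≤ Real.exp (1 / 2) := by
      have := Real.add_one_le_exp (1 / 2 : ℝ)
      linarith
    rw [Real.exp_neg, show (2 / 3 : ℝ) = (3 / 2)⁻¹ by norm_num]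
    exact inv_anti₀ (by norm_num) h1
  have h1 : ∀ j : ℕ, Real.exp (-(max (j : ℝ) x)) ≤ Real.exp (-(x / 2)) * (2 / 3) ^ j := by
    intro j
    have h2 : Real.exp (-((j : ℝ) / 2)) ≤ (2 / 3) ^ j := by
      have h3 : Real.exp (-((j : ℝ) / 2)) = (Real.exp (-(1 / 2))) ^ j := by
        rw [← Real.exp_nat_mul]
        congr 1
        ring
      rw [h3]
      exact pow_le_pow_left₀ (Real.exp_pos _).le hr _
    calc Real.exp (-(max (j : ℝ) x)) ≤ Real.exp (-(x / 2) + -((j : ℝ) / 2)) := by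
          apply Real.exp_le_exp.2
          have := le_max_left (j : ℝ) x
          have := le_max_right (j : ℝ) x
          linarith
      _ = Real.exp (-(x / 2)) * Real.exp (-((j : ℝ) / 2)) := Real.exp_add _ _
      _ ≤ _ := mul_le_mul_of_nonneg_left h2 (Real.exp_pos _).le
  refine (Finset.sum_le_sum fun j _ => h1 j).trans ?_
  rw [← Finset.mul_sum]
  have h5 : ∑ i ∈ Finset.range J, (2 / 3 : ℝ) ^ i ≤ 3 := by
    have := geom_sum_eq (by norm_num : (2 / 3 : ℝ) ≠ 1) J
    rw [this]
    have h6 : (0 : ℝ) ≤ (2 / 3) ^ J := by positivity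
    rw [div_le_iff_of_neg (by norm_num)]
    linarith
  nlinarith [Real.exp_pos (-(x / 2))]

section
variable {V : Type} (L : Lay V)

/-- the part of the mean which comes from the walks with many near-maximal sites -/
theorem mean_tail {D : Set V} (o : V) (hD : ∀ v ∈ D, L.up v ∈ D) (n y : ℕ) {x : ℝ} (hx : 0 ≤ x) :
    ∑ l ∈ (WF L D o n).filter (fun l => (8 * KK L ^ 2) ^ (1 + y) * (1 + x) < (NM L l y).card),
      ((NM L l y).card : ℝ) ≤ Real.exp (-x) * ((WF L D o n).card : ℝ) := by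
  set K := KK L ^ (1 + y) with hK
  have hK1 : 1 < K := one_lt_pow₀ (KK_gt L) (by omega)
  have hK0 : 0 < K := by linarith
  set F := WF L D o n with hF
  set x' := 2 * x + 2 * Real.log (4 * K) with hx'
  have hlog0 : 0 ≤ Real.log (4 * K) := Real.log_nonneg (by linarith)
  have hlog1 : Real.log (4 * K) ≤ 4 * K - 1 := Real.log_le_sub_one_of_pos (by linarith)
  have hx'0 : 0 ≤ x' := by
    rw [hx']
    linarith
  have hthr : K * (1 + x') ≤ (8 * KK L ^ 2) ^ (1 + y) * (1 + x) := by
    have h1 : 1 + x' ≤ 8 * K * (1 + x) := by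
      rw [hx']
      nlinarith
    have h2 : 8 * K ^ 2 ≤ (8 * KK L ^ 2) ^ (1 + y) := by
      rw [mul_pow, hK, ← pow_mul, ← pow_mul, mul_comm (1 + y) 2]
      refine mul_le_mul_of_nonneg_right ?_ (by have := KK_gt L; positivity)
      calc (8 : ℝ) = 8 ^ 1 := by norm_num
        _ ≤ 8 ^ (1 + y) := pow_le_pow_right₀ (by norm_num) (by omega)
    calc K * (1 + x') ≤ K * (8 * K * (1 + x)) := mul_le_mul_of_nonneg_left h1 hK0.le
      _ = 8 * K ^ 2 * (1 + x) := by ring
      _ ≤ _ := mul_le_mul_of_nonneg_right h2 (by linarith)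
  -- a bound for all the cardinalities
  obtain ⟨J, hJ⟩ : ∃ J : ℕ, ∀ l ∈ F, ((NM L l y).card : ℝ) ≤ K * (1 + J) := by
    refine ⟨∑ l ∈ F, (NM L l y).card, fun l hl => ?_⟩
    have h1 : (NM L l y).card ≤ ∑ l ∈ F, (NM L l y).card :=
      Finset.single_le_sum (f := fun l => (NM L l y).card) (fun _ _ => Nat.zero_le _) hl
    have h2 : ((NM L l y).card : ℝ) ≤ ((∑ l ∈ F, (NM L l y).card : ℕ) : ℝ) := by exact_mod_cast h1
    nlinarith [Nat.cast_nonneg (α := ℝ) (∑ l ∈ F, (NM L l y).card)]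
  have htail : ∀ z : ℝ, 0 ≤ z → (∑ l ∈ F, if K * (1 + z) < (NM L l y).card then (1 : ℝ) else 0) ≤
      Real.exp (-z) * (F.card : ℝ) := by
    intro z hz
    rw [← Finset.sum_filter, Finset.sum_const, nsmul_eq_mul, mul_one]
    exact tail_NM L (D := D) o hD n y hz
  have h1 : ∑ l ∈ F.filter (fun l => (8 * KK L ^ 2) ^ (1 + y) * (1 + x) < (NM L l y).card),
      ((NM L l y).card : ℝ) ≤ ∑ l ∈ F, K * ((if K * (1 + x') < (NM L l y).card then (1 : ℝ) else 0) +
        ∑ j ∈ Finset.range J, if K * (1 + max (j : ℝ) x') < (NM L l y).card then (1 : ℝ) else 0) := by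
    rw [Finset.sum_filter]
    refine Finset.sum_le_sum fun l hl => ?_
    have hnn : 0 ≤ ∑ j ∈ Finset.range J,
        if K * (1 + max (j : ℝ) x') < (NM L l y).card then (1 : ℝ) else 0 :=
      Finset.sum_nonneg fun j _ => by split_ifs <;> norm_num
    split_ifs with h2 h3 h3
    · exact nat_le_ind2 hK0 (hJ l hl) h3
    · exact absurd (lt_of_le_of_lt hthr h2) h3
    · positivity
    · positivity
  refine h1.trans ?_
  rw [← Finset.mul_sum, Finset.sum_add_distrib, Finset.sum_comm]
  have h2 := htail x' hx'0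
  have h3 : ∑ j ∈ Finset.range J, ∑ l ∈ F,
      (if K * (1 + max (j : ℝ) x') < (NM L l y).card then (1 : ℝ) else 0) ≤
      3 * Real.exp (-(x' / 2)) * (F.card : ℝ) := by
    calc _ ≤ ∑ j ∈ Finset.range J, Real.exp (-(max (j : ℝ) x')) * (F.card : ℝ) :=
          Finset.sum_le_sum fun j _ => htail _ (le_trans hx'0 (le_max_right _ _))
      _ = (∑ j ∈ Finset.range J, Real.exp (-(max (j : ℝ) x'))) * (F.card : ℝ) := by
          rw [Finset.sum_mul]
      _ ≤ _ := mul_le_mul_of_nonneg_right (sum_exp_max x' J) (Nat.cast_nonneg _)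
  have h4 : Real.exp (-x') ≤ Real.exp (-(x' / 2)) := Real.exp_le_exp.2 (by linarith)
  have hF0 : (0 : ℝ) ≤ F.card := Nat.cast_nonneg _
  have h5 : 4 * K * Real.exp (-(x' / 2)) = Real.exp (-x) := by
    have e : -(x' / 2) = -x - Real.log (4 * K) := by
      rw [hx']
      ring
    rw [e, Real.exp_sub, Real.exp_log (by linarith)]
    field_simp
  calc K * (∑ l ∈ F, (if K * (1 + x') < (NM L l y).card then (1 : ℝ) else 0) +
        ∑ j ∈ Finset.range J, ∑ l ∈ F,
          (if K * (1 + max (j : ℝ) x') < (NM L l y).card then (1 : ℝ) else 0))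
      ≤ K * (Real.exp (-(x' / 2)) * (F.card : ℝ) + 3 * Real.exp (-(x' / 2)) * (F.card : ℝ)) := by
        refine mul_le_mul_of_nonneg_left (add_le_add (h2.trans ?_) h3) hK0.le
        exact mul_le_mul_of_nonneg_right h4 hF0
    _ = (4 * K * Real.exp (-(x' / 2))) * (F.card : ℝ) := by ring
    _ = _ := by rw [h5]

end

section
variable {V : Type} [AddCommGroup V] (L : Lay V)
  (hadj : ∀ u v w : V, L.adj (v + u) (w + u) ↔ L.adj v w)
  (hh : ∀ u v : V, L.h (v + u) = L.h v + L.h u)

/-- the points of a pair within distance `y` of the boundary of the half-space `h ≤ 0` -/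
def bd (y : ℕ) (q : ℕ × List V × List V) : Set V := {v | (v ∈ q.2.1 ∨ v ∈ q.2.2) ∧ -(y : ℤ) ≤ L.h v}

include hadj hh in
theorem bd_eq {y n : ℕ} {q : ℕ × List V × List V} (hq : q ∈ PR L 0 n) :
    (bd L y q).ncard = (NM L (glue q) y).card := by
  have hg := glue_near L hadj hh hq
  obtain ⟨k, a, b⟩ := q
  have hq' := hq
  obtain ⟨h1, h2, h3, h4⟩ := hq
  simp only at h1 h2 h3 h4
  obtain ⟨ea, la⟩ := WK_cons L h2
  obtain ⟨eb, lb⟩ := WK_cons L h3
  set z := a.getLastD 0 with hz
  have hsub : ∀ v w : V, L.h (v - w) = L.h v - L.h w := by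
    intro v w
    have := hh w (v - w)
    rw [sub_add_cancel] at this
    omega
  have h00 : L.h (0 : V) = 0 := by
    have := hh 0 0
    simp at this
    exact this
  have hmem : ∀ v : V, v ∈ glue (k, a, b) ↔ (v + z ∈ a ∨ v + z ∈ b) := by
    intro v
    show v ∈ (a.tail.reverse ++ 0 :: b.tail).map (fun v => v - z) ↔ _
    rw [List.mem_map]
    constructor
    · rintro ⟨u, hu, rfl⟩
      rw [sub_add_cancel]
      rw [List.mem_append, List.mem_reverse] at hu
      rcases hu with hu | hu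
      · left
        rw [ea]
        exact List.mem_cons_of_mem _ hu
      · right
        rw [eb]
        exact hu
    · intro h
      refine ⟨v + z, ?_, by simp⟩
      rw [List.mem_append, List.mem_reverse]
      rcases h with h | h
      · rw [ea, List.mem_cons] at h
        rcases h with h | h
        · right
          rw [h]
          exact List.mem_cons_self
        · exact Or.inl h
      · right
        rw [← eb]
        exact h
  have hle : ∀ v ∈ glue (k, a, b), L.h v ≤ - L.h z := by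
    intro v hv
    have h5 : L.h (v + z) ≤ ((0 : ℕ) : ℤ) := by
      rcases (hmem v).1 hv with h | h
      · exact h2.2.2.2.2 _ h
      · exact h3.2.2.2.2 _ h
    rw [hh] at h5
    push_cast at h5
    omega
  have hzm : - z ∈ glue (k, a, b) := by
    rw [hmem, neg_add_cancel]
    left
    rw [ea]
    exact List.mem_cons_self
  have hneg : L.h (-z) = - L.h z := by
    have := hsub 0 z
    rw [zero_sub, h00] at this
    omega
  have himg : (bd L y (k, a, b)) = (fun v => v + z) '' ((NM L (glue (k, a, b)) y : Finset V) : Set V) := by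
    ext v
    constructor
    · rintro ⟨h5, h6⟩
      refine ⟨v - z, ?_, sub_add_cancel v z⟩
      rw [Finset.mem_coe]
      unfold NM
      rw [Finset.mem_filter, List.mem_toFinset]
      refine ⟨(hmem _).2 (by rw [sub_add_cancel]; exact h5), ?_⟩
      intro w hw
      have := hle w hw
      rw [hsub]
      omega
    · rintro ⟨u, hu, rfl⟩
      rw [Finset.mem_coe] at hu
      unfold NM at hu
      rw [Finset.mem_filter, List.mem_toFinset] at hu
      refine ⟨(hmem u).1 hu.1, ?_⟩
      have h5 := hu.2 _ hzm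
      rw [hneg] at h5
      show -(y : ℤ) ≤ L.h (u + z)
      rw [hh]
      omega
  rw [himg, Set.ncard_image_of_injective _ (add_left_injective z), Set.ncard_coe_finset]

include hadj hh in
/-- most pairs have few points near the boundary -/
theorem pair_tail (n y : ℕ) {x : ℝ} (hx : 0 ≤ x) :
    (({q | q ∈ PR L 0 n ∧ (8 * KK L ^ 2) ^ (1 + y) * (1 + x) < ((bd L y q).ncard : ℝ)} :
      Set (ℕ × List V × List V)).ncard : ℝ) ≤ Real.exp (-x) * ((PR L 0 n).ncard : ℝ) := by
  set X := (8 * KK L ^ 2) ^ (1 + y) * (1 + x) with hX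
  set G := (WF L Set.univ (0 : V) n).filter (fun l => X < (NM L l y).card) with hG
  have h1 : ({q | q ∈ PR L 0 n ∧ X < ((bd L y q).ncard : ℝ)} :
      Set (ℕ × List V × List V)).ncard ≤ ∑ l ∈ G, (NM L l 0).card := by
    rw [← Finset.card_sigma, ← Set.ncard_coe_finset]
    refine Set.ncard_le_ncard_of_injOn
      (fun q : ℕ × List V × List V => (⟨glue q, - q.2.1.getLastD 0⟩ : Σ _ : List V, V)) ?_ ?_
      (Finset.finite_toSet _)
    · rintro q ⟨hq, hq2⟩
      rw [Finset.mem_coe, Finset.mem_sigma, hG, Finset.mem_filter, mem_WF]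
      rw [bd_eq L hadj hh hq] at hq2
      exact ⟨⟨glue_mem L hadj hq, hq2⟩, (glue_near L hadj hh hq).1⟩
    · exact (glue_injOn L hadj hh 0 n).mono (fun q hq => hq.1)
  have h2 : ∀ l, (NM L l 0).card ≤ (NM L l y).card := by
    intro l
    refine Finset.card_le_card ?_
    intro v hv
    unfold NM at hv ⊢
    rw [Finset.mem_filter] at hv ⊢
    refine ⟨hv.1, fun w hw => ?_⟩
    have := hv.2 w hw
    push_cast at this
    omega
  have h3 : ((∑ l ∈ G, (NM L l 0).card : ℕ) : ℝ) ≤ ∑ l ∈ G, ((NM L l y).card : ℝ) := by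
    rw [Nat.cast_sum]
    exact Finset.sum_le_sum fun l _ => by exact_mod_cast h2 l
  have h4 := mean_tail L (D := Set.univ) (0 : V) (fun v _ => Set.mem_univ _) n y hx
  have h5 : ((WF L Set.univ (0 : V) n).card : ℝ) ≤ ((PR L 0 n).ncard : ℝ) := by
    exact_mod_cast PR_ge L hadj hh 0 n
  calc _ ≤ ((∑ l ∈ G, (NM L l 0).card : ℕ) : ℝ) := by exact_mod_cast h1
    _ ≤ ∑ l ∈ G, ((NM L l y).card : ℝ) := h3
    _ ≤ Real.exp (-x) * ((WF L Set.univ (0 : V) n).card : ℝ) := h4
    _ ≤ _ := mul_le_mul_of_nonneg_left h5 (Real.exp_pos _).le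

end

end Run7.h738.EX
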