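import Pool.Agent.Run7.h738.EX.Cnt

/-! # The exponential tail, uniformly in the length and in the domain -/

set_option autoImplicit false

namespace Run7.h738.EX

open scoped Classical

variable {V : Type} (L : Lay V)

/-- the constant -/
noncomputable def KK : ℝ := 20 * ((L.Δ : ℝ) + 1) ^ (4 + 2 * L.p)

theorem KK_gt : 1 < KK L := by
  unfold KK
  have h : (1 : ℝ) ≤ ((L.Δ : ℝ) + 1) ^ (4 + 2 * L.p) :=
    one_le_pow₀ (by have : (0 : ℝ) ≤ L.Δ := Nat.cast_nonneg _; linarith)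
  linarith

theorem y_pow (y : ℕ) : (y + 1) * (y + 2) ≤ 2 * 4 ^ y := by
  induction y with
  | zero => norm_num
  | succ y ih =>
    rw [pow_succ]
    nlinarith

theorem thr_le (y : ℕ) {x : ℝ} (hx : 0 ≤ x) :
    (((2 + 2 * (y + 1) * ((1 + 3 * L.Δ ^ (2 * (y + L.p))) * (⌈x⌉₊ + y + 1))) *
      (L.Δ + 1) ^ (2 * y + 1) : ℕ) : ℝ) ≤ KK L ^ (1 + y) * (1 + x) := by
  set E : ℝ := (L.Δ : ℝ) + 1 with hE
  have hE1 : 1 ≤ E := by
    have : (0 : ℝ) ≤ L.Δ := Nat.cast_nonneg _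
    rw [hE]
    linarith
  have h1 : ((⌈x⌉₊ + y + 1 : ℕ) : ℝ) ≤ (1 + x) * (y + 2) := by
    have := (Nat.ceil_lt_add_one hx).le
    push_cast
    have hy : (0 : ℝ) ≤ y := Nat.cast_nonneg _
    nlinarith
  have h2 : ((1 + 3 * L.Δ ^ (2 * (y + L.p)) : ℕ) : ℝ) ≤ 4 * E ^ (2 * (y + L.p)) := by
    push_cast
    have h3 : (L.Δ : ℝ) ^ (2 * (y + L.p)) ≤ E ^ (2 * (y + L.p)) :=
      pow_le_pow_left₀ (Nat.cast_nonneg _) (by rw [hE]; linarith) _
    have h4 : (1 : ℝ) ≤ E ^ (2 * (y + L.p)) := one_le_pow₀ hE1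
    linarith
  have h3 : (((y + 1) * (y + 2) : ℕ) : ℝ) ≤ 2 * 4 ^ y := by exact_mod_cast y_pow y
  set P := E ^ (2 * (y + L.p)) with hP
  have hP1 : 1 ≤ P := one_le_pow₀ hE1
  have hx1 : 1 ≤ 1 + x := by linarith
  have hy0 : (0 : ℝ) ≤ y := Nat.cast_nonneg _
  have h5 : ((2 + 2 * (y + 1) * ((1 + 3 * L.Δ ^ (2 * (y + L.p))) * (⌈x⌉₊ + y + 1)) : ℕ) : ℝ) ≤
      18 * 4 ^ y * P * (1 + x) := by
    have e : ((2 + 2 * (y + 1) * ((1 + 3 * L.Δ ^ (2 * (y + L.p))) * (⌈x⌉₊ + y + 1)) : ℕ) : ℝ) =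
        2 + 2 * ((y : ℝ) + 1) * (((1 + 3 * L.Δ ^ (2 * (y + L.p)) : ℕ) : ℝ) *
          ((⌈x⌉₊ + y + 1 : ℕ) : ℝ)) := by
      push_cast
      ring
    rw [e]
    have h6 : (((1 + 3 * L.Δ ^ (2 * (y + L.p)) : ℕ) : ℝ) * ((⌈x⌉₊ + y + 1 : ℕ) : ℝ)) ≤
        (4 * P) * ((1 + x) * (y + 2)) :=
      mul_le_mul h2 h1 (Nat.cast_nonneg _) (by positivity)
    have h7 : (1 : ℝ) ≤ 4 ^ y := one_le_pow₀ (by norm_num)
    push_cast at h3
    have h8 : 2 * ((y : ℝ) + 1) * ((4 * P) * ((1 + x) * (y + 2))) ≤ 16 * 4 ^ y * P * (1 + x) := by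
      have h9 : 0 ≤ 8 * P * (1 + x) := by positivity
      calc _ = (8 * P * (1 + x)) * (((y : ℝ) + 1) * (y + 2)) := by ring
        _ ≤ (8 * P * (1 + x)) * (2 * 4 ^ y) := mul_le_mul_of_nonneg_left h3 h9
        _ = _ := by ring
    have h10 : 2 * ((y : ℝ) + 1) * ((((1 + 3 * L.Δ ^ (2 * (y + L.p)) : ℕ) : ℝ) *
          ((⌈x⌉₊ + y + 1 : ℕ) : ℝ))) ≤ 16 * 4 ^ y * P * (1 + x) :=
      (mul_le_mul_of_nonneg_left h6 (by positivity)).trans h8
    have h11 : (1 : ℝ) ≤ 4 ^ y * P * (1 + x) := by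
      have h12 : (1 : ℝ) ≤ 4 ^ y * P := by nlinarith
      nlinarith
    linarith
  calc _ = ((2 + 2 * (y + 1) * ((1 + 3 * L.Δ ^ (2 * (y + L.p))) * (⌈x⌉₊ + y + 1)) : ℕ) : ℝ) *
        E ^ (2 * y + 1) := by
        rw [hE]
        push_cast
        ring
    _ ≤ (18 * 4 ^ y * P * (1 + x)) * E ^ (2 * y + 1) :=
        mul_le_mul_of_nonneg_right h5 (by positivity)
    _ = 18 * 4 ^ y * E ^ (2 * (y + L.p) + (2 * y + 1)) * (1 + x) := by
        rw [hP, pow_add]
        ring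
    _ ≤ (20 ^ (1 + y) * E ^ ((4 + 2 * L.p) * (1 + y))) * (1 + x) := by
        refine mul_le_mul_of_nonneg_right ?_ (by linarith)
        refine mul_le_mul ?_ ?_ (by positivity) (by positivity)
        · rw [pow_add, pow_one]
          have : (4 : ℝ) ^ y ≤ 20 ^ y := pow_le_pow_left₀ (by norm_num) (by norm_num) y
          linarith [show (0 : ℝ) ≤ 20 ^ y by positivity]
        · refine pow_le_pow_right₀ hE1 ?_
          nlinarith
    _ = _ := by
        unfold KK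
        rw [mul_pow, ← pow_mul]

/-- **The tail.** -/
theorem tail_NM {D : Set V} (o : V) (hD : ∀ v ∈ D, L.up v ∈ D) (n y : ℕ) {x : ℝ} (hx : 0 ≤ x) :
    (((WF L D o n).filter (fun l => KK L ^ (1 + y) * (1 + x) < (NM L l y).card)).card : ℝ) ≤
      Real.exp (-x) * ((WF L D o n).card : ℝ) := by
  set r := ⌈x⌉₊ + y + 1 with hr
  have hr1 : 1 ≤ r := by omega
  set A : ℕ → ℕ → Finset (List V) := fun δ π => (WF L D o n).filter
    (fun l => (1 + 3 * L.Δ ^ (2 * kk L δ)) * r ≤ (XS L o l n δ π).card) with hA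
  have hsub : (WF L D o n).filter (fun l => KK L ^ (1 + y) * (1 + x) < (NM L l y).card) ⊆
      (Finset.range (y + 1)).biUnion (fun δ => A δ 0 ∪ A δ 1) := by
    intro l hl
    rw [Finset.mem_filter] at hl
    obtain ⟨hl1, hl2⟩ := hl
    by_contra hc
    have hall : ∀ δ ∈ Finset.range (y + 1), (XS L o l n δ 0).card + (XS L o l n δ 1).card ≤
        2 * ((1 + 3 * L.Δ ^ (2 * (y + L.p))) * r) := by
      intro δ hδ
      have h1 : ∀ π, π = 0 ∨ π = 1 → (XS L o l n δ π).card ≤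
          (1 + 3 * L.Δ ^ (2 * (y + L.p))) * r := by
        intro π hπ
        by_contra hcc
        push Not at hcc
        apply hc
        rw [Finset.mem_biUnion]
        refine ⟨δ, hδ, ?_⟩
        rw [Finset.mem_range] at hδ
        have h2 : (1 + 3 * L.Δ ^ (2 * kk L δ)) * r ≤ (XS L o l n δ π).card := by
          refine le_trans (Nat.mul_le_mul_right _ ?_) hcc.le
          refine Nat.add_le_add_left (Nat.mul_le_mul_left _ ?_) _
          refine Nat.pow_le_pow_right (by have := L.hΔ; omega) ?_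
          have := kk_le L δ
          omega
        rw [Finset.mem_union]
        rcases hπ with rfl | rfl
        · exact Or.inl (Finset.mem_filter.2 ⟨hl1, h2⟩)
        · exact Or.inr (Finset.mem_filter.2 ⟨hl1, h2⟩)
      have h3 := h1 0 (Or.inl rfl)
      have h4 := h1 1 (Or.inr rfl)
      omega
    have h5 := NM_le L ((mem_WF L).1 hl1) y
    have h6 := Finset.sum_le_sum hall
    rw [Finset.sum_const, Finset.card_range, smul_eq_mul] at h6
    have h7 : (NM L l y).card ≤ (2 + 2 * (y + 1) * ((1 + 3 * L.Δ ^ (2 * (y + L.p))) *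
        (⌈x⌉₊ + y + 1))) * (L.Δ + 1) ^ (2 * y + 1) := by
      refine h5.trans (Nat.mul_le_mul_right _ ?_)
      refine Nat.add_le_add_left (h6.trans (le_of_eq ?_)) _
      rw [hr]
      ring
    have h8 := thr_le L y hx
    have h9 : ((NM L l y).card : ℝ) ≤ KK L ^ (1 + y) * (1 + x) :=
      le_trans (by exact_mod_cast h7) h8
    linarith
  have hcard : ∀ δ π, (3 : ℝ) ^ r * ((A δ π).card : ℝ) ≤ ((WF L D o n).card : ℝ) := by
    intro δ π
    exact_mod_cast tail_class L (o := o) hD n δ π r hr1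
  have h1 : (((WF L D o n).filter (fun l => KK L ^ (1 + y) * (1 + x) <
      (NM L l y).card)).card : ℝ) ≤ ∑ δ ∈ Finset.range (y + 1),
        (((A δ 0).card : ℝ) + ((A δ 1).card : ℝ)) := by
    have h2 := (Finset.card_le_card hsub).trans Finset.card_biUnion_le
    have h3 : ∑ δ ∈ Finset.range (y + 1), (A δ 0 ∪ A δ 1).card ≤
        ∑ δ ∈ Finset.range (y + 1), ((A δ 0).card + (A δ 1).card) :=
      Finset.sum_le_sum fun δ _ => Finset.card_union_le _ _
    exact_mod_cast h2.trans h3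
  have h3r : (0 : ℝ) < 3 ^ r := by positivity
  have h4 : ∑ δ ∈ Finset.range (y + 1), (((A δ 0).card : ℝ) + ((A δ 1).card : ℝ)) ≤
      ∑ _δ ∈ Finset.range (y + 1), 2 * (((WF L D o n).card : ℝ) / 3 ^ r) := by
    refine Finset.sum_le_sum fun δ _ => ?_
    have e : ∀ π, ((A δ π).card : ℝ) ≤ ((WF L D o n).card : ℝ) / 3 ^ r := by
      intro π
      rw [le_div_iff₀ h3r]
      have := hcard δ π
      linarith
    linarith [e 0, e 1]
  rw [Finset.sum_const, Finset.card_range, nsmul_eq_mul] at h4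
  refine h1.trans (h4.trans ?_)
  have h5 : (2 * ((y : ℝ) + 1)) * Real.exp x ≤ 3 ^ r := by
    have h6 : Real.exp x ≤ 3 ^ ⌈x⌉₊ := by
      have h7 : Real.exp x ≤ Real.exp (⌈x⌉₊ : ℝ) := Real.exp_le_exp.2 (Nat.le_ceil x)
      have h8 : Real.exp (⌈x⌉₊ : ℝ) = Real.exp 1 ^ ⌈x⌉₊ := by
        rw [← Real.exp_nat_mul, mul_one]
      rw [h8] at h7
      refine h7.trans (pow_le_pow_left₀ (Real.exp_pos _).le ?_ _)
      have := Real.exp_one_lt_d9
      linarith
    have h9 : 2 * ((y : ℝ) + 1) ≤ 3 ^ (y + 1) := by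
      have h10 : 2 * (y + 1) ≤ 3 ^ (y + 1) := by
        clear * -
        induction y with
        | zero => norm_num
        | succ y ih =>
          rw [pow_succ]
          omega
      exact_mod_cast h10
    have e : (3 : ℝ) ^ r = 3 ^ (y + 1) * 3 ^ ⌈x⌉₊ := by
      rw [hr, ← pow_add]
      congr 1
      omega
    rw [e]
    exact mul_le_mul h9 h6 (Real.exp_pos _).le (by positivity)
  have hW : (0 : ℝ) ≤ (WF L D o n).card := Nat.cast_nonneg _
  rw [Real.exp_neg]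
  have hexp := Real.exp_pos x
  calc ((y + 1 : ℕ) : ℝ) * (2 * (((WF L D o n).card : ℝ) / 3 ^ r))
      = (2 * ((y : ℝ) + 1)) * ((WF L D o n).card : ℝ) / 3 ^ r := by push_cast; ring
    _ ≤ (Real.exp x)⁻¹ * ((WF L D o n).card : ℝ) := by
        rw [div_le_iff₀ h3r]
        have h6 : 2 * ((y : ℝ) + 1) ≤ (Real.exp x)⁻¹ * 3 ^ r := by
          rw [← div_eq_inv_mul, le_div_iff₀ hexp]
          exact h5
        calc (2 * ((y : ℝ) + 1)) * ((WF L D o n).card : ℝ)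
            ≤ ((Real.exp x)⁻¹ * 3 ^ r) * ((WF L D o n).card : ℝ) :=
              mul_le_mul_of_nonneg_right h6 hW
          _ = _ := by ring

end Run7.h738.EX
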